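import Pool.Agent.U376.RL.Emb
import Pool.Agent.U376.RF.Fin

/-!
# Trivial 2-Selmer groups in every cell, every genus (helper376)
-/

set_option autoImplicit false
set_option linter.all false

open Polynomial NumberField IsDedekindDomain
open scoped Classical

namespace Pool.Agent.U376.RL

open Pool.Agent.U376.RF
open Pool.Agent.N783.PF
open Pool.Agent.N352.PF (rv)

variable {F : Type} [Field F] [NumberField F]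

/-- The coefficients of `f` are near to `t ^ (2 g + 1 - j) a_j` for a natural number `t > 0`. -/
def NearA (g : ℕ) (a : Fin (2 * g) → (F →+* ℂ) → ℂ) (ε : ℝ) (f : (𝓞 F)[X]) : Prop :=
  ∃ t : ℕ, 0 < t ∧ ∀ (j : Fin (2 * g)) (σ : F →+* ℂ),
    ‖σ (f.coeff (j : ℕ) : F) - (t : ℂ) ^ (2 * g + 1 - (j : ℕ)) * a j σ‖ ≤
      ε * (t : ℝ) ^ (2 * g + 1 - (j : ℕ))

theorem exists_shape {g : ℕ} (a : Fin (2 * g) → (F →+* ℂ) → ℂ)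
    (ha : ∀ j σ, a j (ComplexEmbedding.conjugate σ) = (starRingEnd ℂ) (a j σ)) {ε : ℝ}
    (hε : 0 < ε) : ∃ z : Fin (2 * g) → 𝓞 F, ∀ f : (𝓞 F)[X], Nr g z (ε / 2) f → NearA g a ε f := by
  have hx : ∀ j : Fin (2 * g), ∃ x : F, ∀ σ : F →+* ℂ, ‖σ x - a j σ‖ < ε / 2 := fun j =>
    dense_emb (a j) (ha j) (half_pos hε)
  choose x hx using hx
  obtain ⟨m, hm, hz⟩ := exists_multN x
  choose z hz using hz
  refine ⟨z, ?_⟩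
  rintro f ⟨t, ht, hn⟩
  have hm1 : (1 : ℝ) ≤ m := by exact_mod_cast hm
  have ht0' : (0 : ℝ) < t := by exact_mod_cast ht
  refine ⟨t * m, Nat.mul_pos ht hm, fun j σ => ?_⟩
  obtain ⟨k, hk⟩ : ∃ k : ℕ, k = 2 * g + 1 - (j : ℕ) := ⟨_, rfl⟩
  have e1 := hn j σ
  have e2 := hx j σ
  have e3 : σ (z j : F) = (m : ℂ) ^ k * σ (x j) := by
    rw [hz, map_mul, map_pow, map_natCast, hk]
  rw [e3, ← hk] at e1
  rw [← hk]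
  obtain ⟨b, hb⟩ : ∃ b : ℂ, b = a j σ := ⟨_, rfl⟩
  rw [← hb] at e2 ⊢
  obtain ⟨w, hw⟩ : ∃ w : ℂ, w = σ (f.coeff (j : ℕ) : F) := ⟨_, rfl⟩
  rw [← hw] at e1 ⊢
  obtain ⟨c, hc⟩ : ∃ c : ℂ, c = σ (x j) := ⟨_, rfl⟩
  rw [← hc] at e1 e2
  have e4 : w - ((t * m : ℕ) : ℂ) ^ k * b = (w - (m : ℂ) ^ k * c * (t : ℂ) ^ k) +
      ((t * m : ℕ) : ℂ) ^ k * (c - b) := by
    push_cast
    rw [mul_pow]
    ring
  rw [e4]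
  refine (norm_add_le _ _).trans ?_
  rw [norm_mul, norm_pow, Complex.norm_natCast]
  have e5 : (t : ℝ) ^ k ≤ ((t * m : ℕ) : ℝ) ^ k := by
    push_cast
    exact pow_le_pow_left₀ ht0'.le (le_mul_of_one_le_right ht0'.le hm1) _
  have e6 : (0 : ℝ) < ((t * m : ℕ) : ℝ) ^ k := lt_of_lt_of_le (by positivity) e5
  calc _ ≤ ε / 2 * (t : ℝ) ^ k + ((t * m : ℕ) : ℝ) ^ k * (ε / 2) :=
        add_le_add e1 (mul_le_mul_of_nonneg_left e2.le e6.le)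
    _ ≤ ε / 2 * ((t * m : ℕ) : ℝ) ^ k + ((t * m : ℕ) : ℝ) ^ k * (ε / 2) := by
        gcongr
    _ = _ := by ring

/-- **Trivial 2-Selmer groups in every cell.** -/
theorem mainCell (F : Type) [Field F] [NumberField F] (g : ℕ) (hg : 1 ≤ g) (N : ℕ) (hN : 0 < N)
    (p : (𝓞 F)[X]) (hm0 : p.Monic) (hd0 : p.natDegree = 2 * g + 1) (ht0 : p.coeff (2 * g) = 0)
    (hirr0 : ∀ 𝔭 : Ideal (𝓞 F), 𝔭.IsPrime → 𝔭 ≠ ⊥ → (N : 𝓞 F) ∈ 𝔭 → (2 : 𝓞 F) ∈ 𝔭 →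
      Irreducible (p.map (Ideal.Quotient.mk 𝔭)))
    (hodd0 : ∀ 𝔭 : Ideal (𝓞 F), 𝔭.IsPrime → 𝔭 ≠ ⊥ → (N : 𝓞 F) ∈ 𝔭 → (2 : 𝓞 F) ∉ 𝔭 →
      p.discr ∉ 𝔭 ∨ ((N : 𝓞 F) ∈ 𝔭 ^ 2 ∧ p.discr ∉ 𝔭 ^ 2))
    (a : Fin (2 * g) → (F →+* ℂ) → ℂ)
    (ha : ∀ j σ, a j (ComplexEmbedding.conjugate σ) = (starRingEnd ℂ) (a j σ)) {ε : ℝ}
    (hε : 0 < ε) :
    ∃ c : ℝ, 0 < c ∧ ∃ B₀ : ℕ, ∀ B ≥ B₀,
    {f : (𝓞 F)[X] | Ht g B f}.Finite ∧ c * ({f : (𝓞 F)[X] | Ht g B f}.ncard : ℝ) ≤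
      ({f : (𝓞 F)[X] | Ht g B f ∧ Irreducible (fF f) ∧ SelZero f ∧ Min g f ∧
        (∀ j, (N : 𝓞 F) ∣ f.coeff j - p.coeff j) ∧ NearA g a ε f}.ncard : ℝ) := by
  obtain ⟨z, hz⟩ := exists_shape a ha hε
  obtain ⟨c, hc, B₀, hmain⟩ := mainN Pool.Agent.N490.PF.pts Pool.Agent.N75.PF.cu
    Pool.Agent.N364.PF.cl Pool.Agent.N189.PF.ld Pool.Agent.N195.PF.pr Pool.Agent.N352.PF.bxT
    Pool.Agent.N935.PF.WK.wk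
    (Pool.Agent.N352.PF.STR331.str Pool.Agent.N75.PF.cu Pool.Agent.N364.PF.cl Pool.Agent.N195.PF.pf)
    Pool.Agent.N195.PF.dscp Pool.Agent.N823.PF.gf Pool.Agent.N195.PF.pf
    Pool.Agent.N783.PF.bad Pool.Agent.N783.PF.tw F g hg N hN p hm0 hd0 ht0
    (fun v hv h2v => hirr0 v.asIdeal v.isPrime v.ne_bot hv h2v)
    (fun v hv h2v => by
      rw [dsc_discr hg hm0 hd0, dsc_discr hg hm0 hd0]
      exact hodd0 v.asIdeal v.isPrime v.ne_bot hv h2v)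
    (half_pos hε) z
  refine ⟨c, hc, B₀, fun B hB => ?_⟩
  obtain ⟨h1, h2⟩ := hmain B hB
  refine ⟨h1, h2.trans ?_⟩
  have h3 : {f : (𝓞 F)[X] | Ht g B f ∧ Irreducible (fF f) ∧ SelZero f ∧ Min g f ∧
        (∀ j, (N : 𝓞 F) ∣ f.coeff j - p.coeff j) ∧ Nr g z (ε / 2) f} ⊆
      {f : (𝓞 F)[X] | Ht g B f ∧ Irreducible (fF f) ∧ SelZero f ∧ Min g f ∧
        (∀ j, (N : 𝓞 F) ∣ f.coeff j - p.coeff j) ∧ NearA g a ε f} :=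
    fun f hf => ⟨hf.1, hf.2.1, hf.2.2.1, hf.2.2.2.1, hf.2.2.2.2.1, hz f hf.2.2.2.2.2⟩
  exact_mod_cast Set.ncard_le_ncard h3 (h1.subset fun f hf => hf.1)

end Pool.Agent.U376.RL
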