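import Pool.Agent.U376.RL.FamR
import Pool.Agent.N783.CF.Mono

/-!
# The field generated by a zero of `f` (helper376)
-/

set_option autoImplicit false
set_option linter.all false

open Polynomial NumberField
open scoped Classical

namespace Pool.Agent.U376.RL

open Pool.Agent.N783.PF

variable {F L : Type} [Field F] [NumberField F] [Field L] [NumberField L] [Algebra F L]

theorem adj_top {g : ℕ} {f : (𝓞 F)[X]} {θ : L} (h : IsGen g f θ) :
    Algebra.adjoin F ({θ} : Set L) = ⊤ := by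
  rw [eq_top_iff]
  rintro x -
  obtain ⟨c, rfl⟩ := h.gen x
  have ht : θ ∈ Algebra.adjoin F ({θ} : Set L) := Algebra.subset_adjoin (Set.mem_singleton θ)
  exact Subalgebra.sum_mem _ fun i _ =>
    Subalgebra.mul_mem _ (Subalgebra.algebraMap_mem _ _) (Subalgebra.pow_mem _ ht _)

theorem minpoly_eq {g : ℕ} {f : (𝓞 F)[X]} {θ : L} (h : IsGen g f θ) (hi : Irreducible (fF f)) :
    minpoly F θ = fF f := by
  have hm : (fF f).Monic := h.mon.map _
  exact (minpoly.eq_of_irreducible_of_monic hi h.root hm).symm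

/-- the real embeddings over `σ` correspond to the real zeros -/
theorem card_emb {g : ℕ} {f : (𝓞 F)[X]} {θ : L} (h : IsGen g f θ) (hi : Irreducible (fF f))
    (σ : F →+* ℝ) : Nat.card {φ : L →+* ℝ // φ.comp (algebraMap F L) = σ} = nR f σ := by
  letI : Algebra F ℝ := σ.toAlgebra
  have hint : IsIntegral F θ := Algebra.IsIntegral.isIntegral θ
  let pb : PowerBasis F L := PowerBasis.ofAdjoinEqTop hint (adj_top h)
  have hpb : pb.gen = θ := PowerBasis.ofAdjoinEqTop_gen hint (adj_top h)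
  let e1 : {φ : L →+* ℝ // φ.comp (algebraMap F L) = σ} ≃ (L →ₐ[F] ℝ) :=
    { toFun := fun φ => { φ.1 with commutes' := fun x => congrArg (fun τ : F →+* ℝ => τ x) φ.2 }
      invFun := fun φ => ⟨φ.toRingHom, by
        ext x
        exact φ.commutes x⟩
      left_inv := fun φ => rfl
      right_inv := fun φ => rfl }
  have e2 := pb.liftEquiv (S' := ℝ)
  rw [Nat.card_congr (e1.trans e2), nR]
  rw [← Nat.card_coe_set_eq]
  refine Nat.card_congr (Equiv.subtypeEquivRight fun y => ?_)
  rw [hpb, minpoly_eq h hi]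
  show aeval y (f.map (algebraMap (𝓞 F) F)) = 0 ↔
    (f.map (σ.comp (algebraMap (𝓞 F) F))).eval y = 0
  rw [aeval_def, eval₂_map, eval_map]
  rfl

/-- the minimal polynomial over the ring of integers -/
theorem minpoly_int {g : ℕ} {f : (𝓞 F)[X]} {θ : L} (h : IsGen g f θ) (hi : Irreducible (fF f))
    (t : 𝓞 L) (ht : algebraMap (𝓞 L) L t = θ) : minpoly (𝓞 F) t = f := by
  have hint : IsIntegral (𝓞 F) θ := by
    refine ⟨f, h.mon, ?_⟩
    have h2 := h.root
    rw [aeval_def, eval₂_map] at h2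
    exact h2
  have h1 : minpoly F θ = (minpoly (𝓞 F) θ).map (algebraMap (𝓞 F) F) :=
    minpoly.isIntegrallyClosed_eq_field_fractions' F hint
  have h2 : minpoly (𝓞 F) θ = minpoly (𝓞 F) t := by
    rw [← ht]
    exact minpoly.algebraMap_eq (FaithfulSMul.algebraMap_injective (𝓞 L) L) t
  rw [minpoly_eq h hi, h2] at h1
  have h3 : (fF f) = f.map (algebraMap (𝓞 F) F) := rfl
  rw [h3] at h1
  exact (Polynomial.map_injective _ (FaithfulSMul.algebraMap_injective (𝓞 F) F) h1).symm

/-- the discriminant -/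
theorem dsc_discr {g : ℕ} (hg : 1 ≤ g) {f : (𝓞 F)[X]} (hm : f.Monic)
    (hd : f.natDegree = 2 * g + 1) (I : Ideal (𝓞 F)) :
    Pool.Agent.N352.PF.dsc g f ∈ I ↔ f.discr ∈ I := by
  have hdeg : 0 < f.degree := by
    rw [degree_eq_natDegree hm.ne_zero, hd]
    exact_mod_cast (by omega : 0 < 2 * g + 1)
  have h1 := resultant_deriv (f := f) hdeg
  rw [hm.leadingCoeff, mul_one, hd] at h1
  have h2 : Pool.Agent.N352.PF.dsc g f = (-1) ^ ((2 * g + 1) * (2 * g + 1 - 1) / 2) * f.discr := h1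
  rw [h2]
  rcases neg_one_pow_eq_or (𝓞 F) ((2 * g + 1) * (2 * g + 1 - 1) / 2) with h | h
  · rw [h, one_mul]
  · rw [h, neg_one_mul, neg_mem_iff]

end Pool.Agent.U376.RL
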