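import Pool.Agent.U376.RL.Shape
import Pool.Agent.U376.RF.FamL
import Pool.Agent.U376.RF.Dense

/-!
# Many polynomials with a given number of real zeros (helper376)
-/

set_option autoImplicit false
set_option linter.all false

open Polynomial NumberField IsDedekindDomain
open scoped Classical

namespace Pool.Agent.U376.RL

open Pool.Agent.U376.RF
open Pool.Agent.N783.PF
open Pool.Agent.N783.CF (Two)
open Pool.Agent.N352.PF (rv S_BX S_WK S_STR S_GF S_PF S_CU S_CL S_LD S_PR)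

variable {F : Type} [Field F] [NumberField F]

/-- The number of the real zeros of `f` at the real embedding `σ`. -/
noncomputable def nR (f : (𝓞 F)[X]) (σ : F →+* ℝ) : ℕ :=
  {x : ℝ | (f.map (σ.comp (algebraMap (𝓞 F) F))).eval x = 0}.ncard

theorem FamE_mono {g : ℕ} {E E' : (𝓞 F)[X] → Prop} (h : FamE g E)
    (hE : ∀ (B : ℕ) (f : (𝓞 F)[X]), Ht g B f → E f → E' f) : FamE g E' := by
  obtain ⟨c, hc, B₀, hB⟩ := h
  refine ⟨c, hc, B₀, fun B hBB => ?_⟩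
  obtain ⟨h1, h2⟩ := hB B hBB
  refine ⟨h1, h2.trans ?_⟩
  have h3 : {f : (𝓞 F)[X] | Ht g B f ∧ Irreducible (fF f) ∧ SqF g f ∧ Two g f ∧ E f} ⊆
      {f : (𝓞 F)[X] | Ht g B f ∧ Irreducible (fF f) ∧ SqF g f ∧ Two g f ∧ E' f} :=
    fun f hf => ⟨hf.1, hf.2.1, hf.2.2.1, hf.2.2.2.1, hE B f hf.1 hf.2.2.2.2⟩
  exact_mod_cast Set.ncard_le_ncard h3 (h1.subset fun f hf => hf.1)

/-- real embeddings as complex ones -/
noncomputable def rc (σ : F →+* ℝ) : F →+* ℂ := Complex.ofRealHom.comp σ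

theorem rc_inj {σ τ : F →+* ℝ} (h : rc σ = rc τ) : σ = τ := by
  ext x
  have := congrArg (fun φ : F →+* ℂ => φ x) h
  have h2 : ((σ x : ℝ) : ℂ) = ((τ x : ℝ) : ℂ) := this
  exact_mod_cast h2

theorem rc_conj (σ : F →+* ℝ) : ComplexEmbedding.conjugate (rc σ) = rc σ := by
  ext x
  rw [ComplexEmbedding.conjugate_coe_eq]
  show (starRingEnd ℂ) ((σ x : ℝ) : ℂ) = ((σ x : ℝ) : ℂ)
  exact Complex.conj_ofReal _

/-- the number `s` with `r = 2 s + 1` -/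
noncomputable def sg (r : (F →+* ℝ) → ℕ) (σ : F →+* ℂ) : ℕ :=
  if h : ∃ σ₀ : F →+* ℝ, rc σ₀ = σ then (r h.choose - 1) / 2 else 0

theorem sg_real (r : (F →+* ℝ) → ℕ) (σ : F →+* ℝ) : sg r (rc σ) = (r σ - 1) / 2 := by
  have h : ∃ σ₀ : F →+* ℝ, rc σ₀ = rc σ := ⟨σ, rfl⟩
  rw [sg, dif_pos h, rc_inj h.choose_spec]

theorem sg_conj (r : (F →+* ℝ) → ℕ) (σ : F →+* ℂ) :
    sg r (ComplexEmbedding.conjugate σ) = sg r σ := by
  by_cases h : ∃ σ₀ : F →+* ℝ, rc σ₀ = σ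
  · obtain ⟨σ₀, rfl⟩ := h
    rw [rc_conj]
  · have h' : ¬ ∃ σ₀ : F →+* ℝ, rc σ₀ = ComplexEmbedding.conjugate σ := by
      rintro ⟨σ₀, h0⟩
      apply h
      refine ⟨σ₀, ?_⟩
      have h1 := congrArg ComplexEmbedding.conjugate h0
      rw [rc_conj] at h1
      rw [h1]
      exact ComplexEmbedding.involutive_conjugate F σ
    rw [sg, sg, dif_neg h, dif_neg h']

theorem sg_le {g : ℕ} {r : (F →+* ℝ) → ℕ} (hr : ∀ σ, r σ ≤ 2 * g + 1) (σ : F →+* ℂ) :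
    sg r σ ≤ g := by
  rw [sg]
  split_ifs with h
  · have := hr h.choose
    omega
  · exact Nat.zero_le _

/-- the number of real zeros of a polynomial near the shape -/
theorem nr_real {g s m : ℕ} (hsm : s + m = g) {ε : ℝ}
    (hε : ∀ Q : ℝ[X], Q.Monic → Q.natDegree = 2 * g + 1 →
      (∀ j < 2 * g + 1, ‖((Q.coeff j : ℝ) : ℂ) - (pz (zs s m)).coeff j‖ ≤ ε) →
      {x : ℝ | Q.eval x = 0}.ncard = ((zs s m).filter fun ρ => (starRingEnd ℂ) ρ = ρ).card)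
    (hε0 : 0 ≤ ε)
    {f : (𝓞 F)[X]} (hm : f.Monic) (hd : f.natDegree = 2 * g + 1) (ht : f.coeff (2 * g) = 0)
    (σ : F →+* ℝ) {t : ℕ} (ht0 : 0 < t)
    (hn : ∀ j < 2 * g, ‖rc σ (f.coeff j : F) - (t : ℂ) ^ (2 * g + 1 - j) *
      (pz (zs s m)).coeff j‖ ≤ ε * (t : ℝ) ^ (2 * g + 1 - j)) : nR f σ = 2 * s + 1 := by
  have htr : (0 : ℝ) < t := by exact_mod_cast ht0
  obtain ⟨P, hP⟩ : ∃ P : ℝ[X], P = f.map (σ.comp (algebraMap (𝓞 F) F)) := ⟨_, rfl⟩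
  have hPm : P.Monic := by rw [hP]; exact hm.map _
  have hPd : P.natDegree = 2 * g + 1 := by rw [hP, hm.natDegree_map, hd]
  have hPc : ∀ j, ((P.coeff j : ℝ) : ℂ) = rc σ (f.coeff j : F) := by
    intro j
    rw [hP, coeff_map]
    rfl
  have h1 := hε (P.scaleRoots ((t : ℝ)⁻¹)) ((monic_scaleRoots_iff _).2 hPm)
    (by rw [natDegree_scaleRoots, hPd]) (by
      intro j hj
      rw [coeff_scaleRoots, hPd]
      by_cases hj2 : j = 2 * g
      · subst hj2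
        have e1 : P.coeff (2 * g) = 0 := by rw [hP, coeff_map, ht, map_zero]
        rw [e1, zs_coeff_top s m g hsm, zero_mul, Complex.ofReal_zero, sub_zero, norm_zero]
        exact hε0
      · have e2 := hn j (by omega)
        have htk : (0 : ℝ) < (t : ℝ) ^ (2 * g + 1 - j) := by positivity
        have htk' : ((t : ℂ)) ^ (2 * g + 1 - j) ≠ 0 := by
          apply pow_ne_zero
          exact_mod_cast ht0.ne'
        have e3 : ((P.coeff j * (t : ℝ)⁻¹ ^ (2 * g + 1 - j) : ℝ) : ℂ) - (pz (zs s m)).coeff j =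
            (rc σ (f.coeff j : F) - (t : ℂ) ^ (2 * g + 1 - j) * (pz (zs s m)).coeff j) /
              (t : ℂ) ^ (2 * g + 1 - j) := by
          rw [Complex.ofReal_mul, hPc, Complex.ofReal_pow, Complex.ofReal_inv,
            Complex.ofReal_natCast, inv_pow]
          field_simp
        rw [e3, norm_div, norm_pow, Complex.norm_natCast, div_le_iff₀ htk]
        exact e2)
  rw [zs_real] at h1
  rw [nR, ← hP, ← h1]
  refine Set.ncard_congr (fun x _ => (t : ℝ)⁻¹ * x) ?_ ?_ ?_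
  · intro x hx
    have hx : P.eval x = 0 := hx
    show (P.scaleRoots ((t : ℝ)⁻¹)).eval ((t : ℝ)⁻¹ * x) = 0
    have e := scaleRoots_eval₂_mul (p := P) (RingHom.id ℝ) x ((t : ℝ)⁻¹)
    rw [RingHom.id_apply] at e
    exact e.trans (by
      have : eval₂ (RingHom.id ℝ) x P = 0 := hx
      rw [this, mul_zero])
  · intro x y _ _ h
    have h : (t : ℝ)⁻¹ * x = (t : ℝ)⁻¹ * y := h
    exact mul_left_cancel₀ (inv_ne_zero htr.ne') h
  · intro y hy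
    have hy : (P.scaleRoots ((t : ℝ)⁻¹)).eval y = 0 := hy
    refine ⟨t * y, ?_, ?_⟩
    · show P.eval ((t : ℝ) * y) = 0
      have e := scaleRoots_eval₂_mul (p := P) (RingHom.id ℝ) ((t : ℝ) * y) ((t : ℝ)⁻¹)
      rw [RingHom.id_apply, ← mul_assoc, inv_mul_cancel₀ htr.ne', one_mul] at e
      have e2 : eval₂ (RingHom.id ℝ) y (P.scaleRoots ((t : ℝ)⁻¹)) = 0 := hy
      rw [e2] at e
      have e3 : ((t : ℝ)⁻¹) ^ P.natDegree ≠ 0 := pow_ne_zero _ (inv_ne_zero htr.ne')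
      rcases mul_eq_zero.1 e.symm with h | h
      · exact absurd h e3
      · exact h
    · show (t : ℝ)⁻¹ * (t * y) = y
      rw [← mul_assoc, inv_mul_cancel₀ htr.ne', one_mul]

/-- integral multiples of finitely many elements -/
theorem exists_multN {g : ℕ} (x : Fin (2 * g) → F) : ∃ m : ℕ, 0 < m ∧
    ∀ j : Fin (2 * g), ∃ u : 𝓞 F, (u : F) = (m : F) ^ (2 * g + 1 - (j : ℕ)) * x j := by
  have : Algebra.IsAlgebraic ℤ F :=
    (IsFractionRing.comap_isAlgebraic_iff (A := ℤ) (K := ℚ) (C := F)).2 inferInstance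
  obtain ⟨n, hn0, hn⟩ := Algebra.IsAlgebraic.exists_integral_multiples ℤ
    (Finset.univ.image x : Finset F)
  obtain ⟨m, hm⟩ : ∃ m : ℕ, m = n.natAbs := ⟨_, rfl⟩
  have hm0 : 0 < m := by rw [hm]; exact Int.natAbs_pos.2 hn0
  have h1 : ∀ z ∈ (Finset.univ.image x : Finset F), IsIntegral ℤ ((m : F) * z) := by
    intro z hz
    have h2 := hn z hz
    rw [zsmul_eq_mul] at h2
    rcases Int.natAbs_eq n with h3 | h3
    · rw [← hm] at h3
      have e : (n : F) = (m : F) := by rw [h3]; push_cast; rfl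
      rw [e] at h2
      exact h2
    · rw [← hm] at h3
      have e : (n : F) = -(m : F) := by rw [h3]; push_cast; rfl
      rw [e, neg_mul] at h2
      have h4 := h2.neg
      rw [neg_neg] at h4
      exact h4
  have hmi : IsIntegral ℤ ((m : F)) := by
    have : IsIntegral ℤ (algebraMap ℤ F (m : ℤ)) := isIntegral_algebraMap
    simpa using this
  refine ⟨m, hm0, fun j => ⟨⟨(m : F) ^ (2 * g + 1 - (j : ℕ)) * x j, ?_⟩, rfl⟩⟩
  have e : (m : F) ^ (2 * g + 1 - (j : ℕ)) * x j =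
      (m : F) ^ (2 * g - (j : ℕ)) * ((m : F) * x j) := by
    have e2 : 2 * g + 1 - (j : ℕ) = (2 * g - (j : ℕ)) + 1 := by have := j.2; omega
    rw [e2, pow_succ]
    ring
  rw [e]
  exact (hmi.pow _).mul (h1 (x j) (Finset.mem_image_of_mem _ (Finset.mem_univ _)))

theorem famR (h0 : S_PTS) (g1 : S_CU) (g2 : S_CL) (hLD : S_LD) (hPR : S_PR) (g3 : S_BX)
    (g4 : S_WK) (g5 : S_STR) (g6 : Pool.Agent.N352.PF.S_DSC) (g7 : S_GF) (g8 : S_PF) (h2 : S_BAD)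
    (h4 : Pool.Agent.N783.PF.S_SQF) (h5 : Pool.Agent.N783.PF.S_IRR)
    (g : ℕ) (hg : 1 ≤ g) (Nn : ℕ) (hNn : 0 < Nn)
    (f₀ : (𝓞 F)[X]) (hm0 : f₀.Monic) (hd0 : f₀.natDegree = 2 * g + 1) (ht0 : f₀.coeff (2 * g) = 0)
    (hirr0 : ∀ v : HeightOneSpectrum (𝓞 F), (Nn : 𝓞 F) ∈ v.asIdeal → (2 : 𝓞 F) ∈ v.asIdeal →
      Irreducible (rv v f₀))
    (hodd0 : ∀ v : HeightOneSpectrum (𝓞 F), (Nn : 𝓞 F) ∈ v.asIdeal → (2 : 𝓞 F) ∉ v.asIdeal →
      Pool.Agent.N352.PF.dsc g f₀ ∉ v.asIdeal ∨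
        ((Nn : 𝓞 F) ∈ v.asIdeal ^ 2 ∧ Pool.Agent.N352.PF.dsc g f₀ ∉ v.asIdeal ^ 2))
    (r : (F →+* ℝ) → ℕ) (hr1 : ∀ σ, Odd (r σ)) (hr2 : ∀ σ, r σ ≤ 2 * g + 1) :
    FamE g (fun f : (𝓞 F)[X] => (∀ j, (Nn : 𝓞 F) ∣ f.coeff j - f₀.coeff j) ∧
      ∀ σ : F →+* ℝ, nR f σ = r σ) := by
  -- the distance
  have hex : ∀ σ : F →+* ℂ, ∃ ε : ℝ, 0 < ε ∧ ∀ Q : ℝ[X], Q.Monic → Q.natDegree = 2 * g + 1 →
      (∀ j < 2 * g + 1, ‖((Q.coeff j : ℝ) : ℂ) - (pz (zs (sg r σ) (g - sg r σ))).coeff j‖ ≤ ε) →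
      {x : ℝ | Q.eval x = 0}.ncard =
        ((zs (sg r σ) (g - sg r σ)).filter fun ρ => (starRingEnd ℂ) ρ = ρ).card := by
    intro σ
    refine real_roots (zs (sg r σ) (g - sg r σ)) ?_ (fun ρ h => zs_conj h)
    rw [zs_card]
    have := sg_le (g := g) hr2 σ
    omega
  choose εf hεf hεQ using hex
  obtain ⟨ε, hε, hεle⟩ : ∃ ε : ℝ, 0 < ε ∧ ∀ σ : F →+* ℂ, ε ≤ εf σ := by
    obtain ⟨σ, -, hσ⟩ := Finset.exists_min_image (Finset.univ : Finset (F →+* ℂ)) εf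
      Finset.univ_nonempty
    exact ⟨εf σ, hεf σ, fun τ => hσ τ (Finset.mem_univ τ)⟩
  have hx : ∀ j : Fin (2 * g), ∃ x : F, ∀ σ : F →+* ℂ,
      ‖σ x - (pz (zs (sg r σ) (g - sg r σ))).coeff (j : ℕ)‖ < ε / 2 := by
    intro j
    refine dense_emb (fun σ => (pz (zs (sg r σ) (g - sg r σ))).coeff (j : ℕ)) (fun σ => ?_)
      (half_pos hε)
    show (pz (zs (sg r _) (g - sg r _))).coeff (j : ℕ) = _
    rw [sg_conj, zs_coeff_conj]
  choose x hx using hx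
  obtain ⟨m, hm, hz⟩ := exists_multN x
  choose z hz using hz
  refine FamE_mono (famL h0 g1 g2 hLD hPR g3 g4 g5 g6 g7 g8 h2 h4 h5 F g hg Nn hNn f₀ hm0 hd0 ht0
    hirr0 hodd0 (half_pos hε) z) ?_
  rintro B f hf ⟨hc, t, ht, hn⟩
  refine ⟨hc, fun σ => ?_⟩
  have hs := sg_real r σ
  have hle := sg_le (g := g) hr2 (rc σ)
  have hm1 : (1 : ℝ) ≤ m := by exact_mod_cast hm
  have ht0' : (0 : ℝ) < t := by exact_mod_cast ht
  have key := nr_real (g := g) (s := sg r (rc σ)) (m := g - sg r (rc σ)) (by omega)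
    (fun Q hQ1 hQ2 hQ3 => hεQ (rc σ) Q hQ1 hQ2 fun j hj => (hQ3 j hj).trans (hεle _)) hε.le
    hf.mon hf.deg hf.tr σ (Nat.mul_pos ht hm) (by
      intro j hj
      obtain ⟨k, hk⟩ : ∃ k : ℕ, k = 2 * g + 1 - j := ⟨_, rfl⟩
      have e1 := hn ⟨j, hj⟩ (rc σ)
      have e2 := hx ⟨j, hj⟩ (rc σ)
      have e3 : rc σ (z ⟨j, hj⟩ : F) = (m : ℂ) ^ k * rc σ (x ⟨j, hj⟩) := by
        rw [hz, map_mul, map_pow, map_natCast, hk]
      simp only at e1 e2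
      rw [e3, ← hk] at e1
      rw [← hk]
      obtain ⟨a, ha⟩ : ∃ a : ℂ, a = (pz (zs (sg r (rc σ)) (g - sg r (rc σ)))).coeff j := ⟨_, rfl⟩
      rw [← ha] at e2 ⊢
      obtain ⟨w, hw⟩ : ∃ w : ℂ, w = rc σ (f.coeff j : F) := ⟨_, rfl⟩
      rw [← hw] at e1 ⊢
      obtain ⟨c, hc⟩ : ∃ c : ℂ, c = rc σ (x ⟨j, hj⟩) := ⟨_, rfl⟩
      rw [← hc] at e1 e2
      have e4 : w - ((t * m : ℕ) : ℂ) ^ k * a = (w - (m : ℂ) ^ k * c * (t : ℂ) ^ k) +
          ((t * m : ℕ) : ℂ) ^ k * (c - a) := by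
        push_cast
        rw [mul_pow]
        ring
      rw [e4]
      refine (norm_add_le _ _).trans ?_
      rw [norm_mul, norm_pow, Complex.norm_natCast]
      have e5 : (t : ℝ) ^ k ≤ ((t * m : ℕ) : ℝ) ^ k := by
        push_cast
        exact pow_le_pow_left₀ ht0'.le (le_mul_of_one_le_right ht0'.le hm1) _
      have e6 : (0 : ℝ) < ((t * m : ℕ) : ℝ) ^ k := lt_of_lt_of_le (by positivity) e5
      calc _ ≤ ε / 2 * (t : ℝ) ^ k + ((t * m : ℕ) : ℝ) ^ k * (ε / 2) :=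
            add_le_add e1 (mul_le_mul_of_nonneg_left e2.le e6.le)
        _ ≤ ε / 2 * ((t * m : ℕ) : ℝ) ^ k + ((t * m : ℕ) : ℝ) ^ k * (ε / 2) := by
            gcongr
        _ = _ := by ring)
  rw [key, hs]
  obtain ⟨b, hb⟩ := hr1 σ
  omega

end Pool.Agent.U376.RL
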