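import Pool.Agent.U376.RL.FamR
import Pool.Agent.N783.CF.CntS

/-!
# The same with the condition `TwoS` of project WR (helper376)
-/

set_option autoImplicit false
set_option linter.all false

open Polynomial NumberField IsDedekindDomain
open scoped Classical

namespace Pool.Agent.U376.RL

open Pool.Agent.N783.PF
open Pool.Agent.U376.RF
open Pool.Agent.N783.CF (Two TwoS Spl S_SPL S_EXS2 t_EXS2)
open Pool.Agent.N99.PF
open Pool.Agent.N352.PJ (dd)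
open Pool.Agent.N352.PF (rv S_BX S_WK S_STR S_GF S_PF S_CU S_CL S_LD S_PR)

theorem famT (hspl : S_SPL) (W₀ : ℕ) (h0 : S_PTS) (g1 : S_CU) (g2 : S_CL) (hLD : S_LD) (hPR : S_PR) (g3 : S_BX)
    (g4 : S_WK) (g5 : S_STR) (g6 : Pool.Agent.N352.PF.S_DSC) (g7 : S_GF) (g8 : S_PF) (h2 : S_BAD)
    (h4 : Pool.Agent.N783.PF.S_SQF) (h5 : Pool.Agent.N783.PF.S_IRR)
    (F : Type) [Field F] [NumberField F] (g : ℕ) (hg : 1 ≤ g) (Nn : ℕ) (hNn : 0 < Nn)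
    (f₀ : (𝓞 F)[X]) (hm0 : f₀.Monic) (hd0 : f₀.natDegree = 2 * g + 1) (ht0 : f₀.coeff (2 * g) = 0)
    (hirr0 : ∀ v : HeightOneSpectrum (𝓞 F), (Nn : 𝓞 F) ∈ v.asIdeal → (2 : 𝓞 F) ∈ v.asIdeal →
      Irreducible (rv v f₀))
    (hodd0 : ∀ v : HeightOneSpectrum (𝓞 F), (Nn : 𝓞 F) ∈ v.asIdeal → (2 : 𝓞 F) ∉ v.asIdeal →
      Pool.Agent.N352.PF.dsc g f₀ ∉ v.asIdeal ∨
        ((Nn : 𝓞 F) ∈ v.asIdeal ^ 2 ∧ Pool.Agent.N352.PF.dsc g f₀ ∉ v.asIdeal ^ 2))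
    {ε : ℝ} (hε : 0 < ε) (z : Fin (2 * g) → 𝓞 F) :
    FamE g (fun f : (𝓞 F)[X] => TwoS g W₀ f ∧
      (∀ j, (Nn : 𝓞 F) ∣ f.coeff j - f₀.coeff j) ∧ Nr g z ε f) := by
  obtain ⟨κ, hsq⟩ := h4 g F hg
  obtain ⟨C, K, hbad⟩ := h2 F g κ hg
  -- the even and the odd part of the modulus
  obtain ⟨e, N₂, hN2, hNe⟩ := Nat.exists_eq_pow_mul_and_not_dvd hNn.ne' 2 (by norm_num)
  obtain ⟨N₁, hN₁⟩ : ∃ N₁ : ℕ, N₁ = 2 ^ e := ⟨_, rfl⟩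
  rw [← hN₁] at hNe
  have hN10 : 0 < N₁ := by rw [hN₁]; positivity
  have hN20 : 0 < N₂ := by
    rcases Nat.eq_zero_or_pos N₂ with h | h
    · rw [h] at hN2
      exact absurd (dvd_zero 2) hN2
    · exact h
  have hcop2 : Nat.Coprime 2 N₂ := (Nat.Prime.coprime_iff_not_dvd Nat.prime_two).2 hN2
  have hcop12 : Nat.Coprime N₁ N₂ := by
    rw [hN₁]
    exact Nat.Coprime.pow_left _ hcop2
  have hNnc : (Nn : 𝓞 F) = (N₁ : 𝓞 F) * (N₂ : 𝓞 F) := by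
    rw [hNe, Nat.cast_mul]
  have htwo : ∀ v : HeightOneSpectrum (𝓞 F), (N₁ : 𝓞 F) ∈ v.asIdeal → (2 : 𝓞 F) ∈ v.asIdeal := by
    intro v hv
    rw [hN₁, Nat.cast_pow, Nat.cast_ofNat] at hv
    exact v.isPrime.mem_of_pow_mem _ hv
  have hntwo : ∀ v : HeightOneSpectrum (𝓞 F), (N₂ : 𝓞 F) ∈ v.asIdeal → (2 : 𝓞 F) ∉ v.asIdeal := by
    intro v hv h2v
    obtain ⟨a, b, hab⟩ := (Nat.isCoprime_iff_coprime.2 hcop2)
    have hab' : (a : 𝓞 F) * 2 + (b : 𝓞 F) * (N₂ : 𝓞 F) = 1 := by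
      have := congrArg (Int.cast : ℤ → 𝓞 F) hab
      push_cast at this ⊢
      exact this
    apply v.isPrime.ne_top
    rw [Ideal.eq_top_iff_one, ← hab']
    exact Ideal.add_mem _ (Ideal.mul_mem_left _ _ h2v) (Ideal.mul_mem_left _ _ hv)
  have hirr1 : ∀ v : HeightOneSpectrum (𝓞 F), (N₁ : 𝓞 F) ∈ v.asIdeal → (2 : 𝓞 F) ∈ v.asIdeal →
      Irreducible (rv v f₀) := by
    intro v hv h2v
    refine hirr0 v ?_ h2v
    rw [hNnc]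
    exact Ideal.mul_mem_right _ _ hv
  have hsep1 : ∀ v : HeightOneSpectrum (𝓞 F), (N₁ : 𝓞 F) ∈ v.asIdeal → (rv v f₀).Separable := by
    intro v hv
    haveI : Finite (𝓞 F ⧸ v.asIdeal) := v.asIdeal.finiteQuotientOfFreeOfNeBot v.ne_bot
    haveI : IsDomain (𝓞 F ⧸ v.asIdeal) := Ideal.Quotient.isDomain v.asIdeal
    exact Pool.Agent.N951.PF.sep_of_irr (hirr1 v hv (htwo v hv))
  have hodd1 : ∀ v : HeightOneSpectrum (𝓞 F), (N₂ : 𝓞 F) ∈ v.asIdeal →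
      Pool.Agent.N352.PF.dsc g f₀ ∉ v.asIdeal ∨
        ((N₂ : 𝓞 F) ∈ v.asIdeal ^ 2 ∧ Pool.Agent.N352.PF.dsc g f₀ ∉ v.asIdeal ^ 2) := by
    intro v hv
    have hNv : (Nn : 𝓞 F) ∈ v.asIdeal := by
      rw [hNnc]
      exact Ideal.mul_mem_left _ _ hv
    rcases hodd0 v hNv (hntwo v hv) with h | ⟨h, h'⟩
    · exact Or.inl h
    · refine Or.inr ⟨?_, h'⟩
      rw [hNnc] at h
      haveI := v.isPrime
      rcases Ideal.IsPrime.mul_mem_pow v.asIdeal h with h'' | h''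
      · exact absurd (htwo v h'') (hntwo v hv)
      · exact h''
  obtain ⟨W, f₁, hKW0, hf₁, hNW, hf01, c, hc, hfam⟩ :=
    famN g1 g2 hLD hPR g3 g4 g5 g6 g7 g8 F g hg (max (max K κ) (max W₀ N₂)) N₁ N₂ hN10 hN20 hN2 hcop12 f₀ hm0 hd0 ht0
      hirr1 hsep1 hodd1 hε z
  have hKW : max K κ ≤ W := (le_max_left _ _).trans hKW0
  have hW₀ : W₀ ≤ W := ((le_max_left _ _).trans (le_max_right _ _)).trans hKW0
  have hN₂ : N₂ ≤ W := ((le_max_right _ _).trans (le_max_right _ _)).trans hKW0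
  obtain ⟨-, Cp, hCp, -, hpt⟩ := h0 F
  set D : ℕ := Module.finrank ℚ F * dd g with hD
  obtain ⟨m, hm1, hm⟩ : ∃ m : ℕ, 1 ≤ m ∧ 2 * (C * (4 * 2 ^ κ : ℝ) ^ D) / c < 2 ^ m := by
    obtain ⟨m, hm⟩ : ∃ m : ℕ, 2 * (C * (4 * 2 ^ κ : ℝ) ^ D) / c < 2 ^ m :=
      pow_unbounded_of_one_lt _ (by norm_num)
    refine ⟨m + 1, by omega, hm.trans_le ?_⟩
    exact pow_le_pow_right₀ (by norm_num) (by omega)
  obtain ⟨S, 𝔮, h, P, hS, hcard, hspl'⟩ := t_EXS2 hspl F g W hg m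
  have hSN2 : ∀ q ∈ S, ¬ q ∣ N₂ := by
    intro q hq hd
    have e1 := Nat.le_of_dvd hN20 hd
    have e2 := (hS q hq).2.1
    omega
  obtain ⟨B₁₀, hB₁₀⟩ := hfam S 𝔮 h P hS hSN2
  obtain ⟨N₀, hN₀⟩ := hbad W S 𝔮 h P ((le_max_left _ _).trans hKW) hS
  have hq1 : ∀ q ∈ S, 1 ≤ q := fun q hq => (hS q hq).1.pos
  set Pn : ℕ := (∏ q ∈ S, q ^ (2 * g)) ^ Module.finrank ℚ F with hPn
  have hP0 : (0 : ℝ) < Pn := by
    have : 0 < Pn := pow_pos (Finset.prod_pos fun q hq => pow_pos (hq1 q hq) _) _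
    exact_mod_cast this
  refine ⟨c / 2 / Pn, by positivity, max (max B₁₀ (4 ^ N₀)) 1, fun B hB => ?_⟩
  have hB1 : 1 ≤ B := (le_max_right _ _).trans hB
  have hb2 : B₁₀ ≤ B := ((le_max_left _ _).trans (le_max_left _ _)).trans hB
  have hb3 : 4 ^ N₀ ≤ B := ((le_max_right _ _).trans (le_max_left _ _)).trans hB
  obtain ⟨N, hNa, hNb⟩ : ∃ N : ℕ, 2 ^ κ * B ≤ 4 ^ N ∧ 4 ^ N ≤ 4 * (2 ^ κ * B) := by
    refine ⟨Nat.log 4 (2 ^ κ * B) + 1, (Nat.lt_pow_succ_log_self (by norm_num) _).le, ?_⟩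
    rw [pow_succ, mul_comm]
    refine Nat.mul_le_mul_left 4 (Nat.pow_log_le_self 4 ?_)
    positivity
  have hNN : N₀ ≤ N := by
    have e1 : 4 ^ N₀ ≤ 4 ^ N := hb3.trans (le_trans (Nat.le_mul_of_pos_left _ (by positivity)) hNa)
    exact (Nat.pow_le_pow_iff_right (by norm_num)).1 e1
  obtain ⟨hfin, hBd⟩ := hN₀ N hNN
  have hHt := (ht_card hCp hpt g B hB1).1
  refine ⟨hHt, ?_⟩
  set H := {f : (𝓞 F)[X] | Ht g B f ∧ Irreducible (fF f) ∧ SqF g f ∧ Two g f ∧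
    (TwoS g W₀ f ∧ (∀ j, (Nn : 𝓞 F) ∣ f.coeff j - f₀.coeff j) ∧ Nr g z ε f)} with hH
  set G := {f : (𝓞 F)[X] | Fam g B W f₁ S P f ∧ Nr g z ε f ∧
      ∀ j, (N₂ : 𝓞 F) ∣ f.coeff j - f₀.coeff j} \
    {f : (𝓞 F)[X] | LBad g N κ S 𝔮 P f} with hGdef
  have hHf : H.Finite := hHt.subset fun f hf => hf.1
  have hG : c / 2 * (B : ℝ) ^ D ≤ Pn * (G.ncard : ℝ) := by
    refine good_card (C := C) (m := m) (κ := κ) hc hP0 B N (hB₁₀ B hb2) hfin ?_ hm ?_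
    · rw [hcard] at hBd
      have e2 : Module.finrank ℚ F * (2 * N * dd g) = 2 * N * D := by rw [hD]; ring
      rw [e2] at hBd
      exact_mod_cast hBd
    · exact_mod_cast hNb
  obtain ⟨q, hq⟩ : S.Nonempty := by
    rw [← Finset.card_pos]
    omega
  obtain ⟨hqp, hqW, -, -, -, h𝔮p, hq𝔮, hhm, hhd, hhirr, -, -, -, hACg, hAirr⟩ := hS q hq
  have hne : 𝔮 q ≠ ⊥ := by
    intro hbot
    rw [hbot, Ideal.mem_bot] at hq𝔮
    have : q = 0 := by exact_mod_cast hq𝔮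
    exact hqp.ne_zero this
  have hsub : G ⊆ H := by
    intro f hf
    have hF : Fam g B W f₁ S P f := hf.1.1
    have hirr : Irreducible (fF f) := h5 F g W f₁ f hf₁ hF.one hF.ht.mon hF.ht.deg
    have hCgf : Cg (𝔮 q) f (X * h q) := by
      intro j
      have e1 : f.coeff j - (P q).coeff j ∈ 𝔮 q :=
        (Ideal.span_singleton_le_iff_mem (𝔮 q)).2 hq𝔮 (hF.con q hq j)
      have e2 := (𝔮 q).add_mem e1 (hACg j)
      rwa [sub_add_sub_cancel] at e2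
    refine ⟨hF.ht, hirr, ?_, ⟨𝔮 q, h q, h𝔮p, hne, hhm, hhd, hhirr, hCgf⟩, ?_, ?_, hf.1.2.1⟩
    · exact hsq B N W f₁ S 𝔮 h P f ((le_max_right _ _).trans hKW) hf₁ hS hF hirr hNa hB1 hf.2
    · refine ⟨q, 𝔮 q, h q, hqp, lt_of_le_of_lt hW₀ hqW, hspl' q hq, h𝔮p, hq𝔮, hhm, hhd, hhirr, hCgf,
        ?_⟩
      intro 𝔭 h𝔭 hq𝔭 hne𝔭
      have e : rd 𝔭 f = rd 𝔭 (P q) := by
        ext j
        simp only [coeff_map]
        exact Ideal.Quotient.eq.2 ((Ideal.span_singleton_le_iff_mem 𝔭).2 hq𝔭 (hF.con q hq j))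
      rw [e]
      exact hAirr 𝔭 h𝔭 hq𝔭 hne𝔭
    · intro j
      have e1 : (W : 𝓞 F) ∣ f.coeff j - f₁.coeff j := Ideal.mem_span_singleton.1 (hF.one j)
      have e2 : f.coeff j - f₀.coeff j = (f.coeff j - f₁.coeff j) + (f₁.coeff j - f₀.coeff j) := by
        ring
      have e3 : (N₁ : 𝓞 F) ∣ f.coeff j - f₀.coeff j := by
        rw [e2]
        exact dvd_add ((Nat.cast_dvd_cast hNW).trans e1) (hf01 j)
      have e4 : IsCoprime (N₁ : 𝓞 F) (N₂ : 𝓞 F) := by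
        have := (Nat.isCoprime_iff_coprime.2 hcop12).map (Int.castRingHom (𝓞 F))
        simpa using this
      rw [hNnc]
      exact e4.mul_dvd e3 (hf.1.2.2 j)
  have hle : (G.ncard : ℝ) ≤ H.ncard := by
    exact_mod_cast Set.ncard_le_ncard hsub hHf
  calc c / 2 / Pn * (B : ℝ) ^ D = c / 2 * (B : ℝ) ^ D / Pn := by ring
    _ ≤ (Pn * (G.ncard : ℝ)) / Pn := by gcongr
    _ = G.ncard := by field_simp
    _ ≤ H.ncard := hle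

theorem famTR {F : Type} [Field F] [NumberField F] (hspl : S_SPL) (W₀ : ℕ) (h0 : S_PTS) (g1 : S_CU) (g2 : S_CL) (hLD : S_LD) (hPR : S_PR) (g3 : S_BX)
    (g4 : S_WK) (g5 : S_STR) (g6 : Pool.Agent.N352.PF.S_DSC) (g7 : S_GF) (g8 : S_PF) (h2 : S_BAD)
    (h4 : Pool.Agent.N783.PF.S_SQF) (h5 : Pool.Agent.N783.PF.S_IRR)
    (g : ℕ) (hg : 1 ≤ g) (Nn : ℕ) (hNn : 0 < Nn)
    (f₀ : (𝓞 F)[X]) (hm0 : f₀.Monic) (hd0 : f₀.natDegree = 2 * g + 1) (ht0 : f₀.coeff (2 * g) = 0)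
    (hirr0 : ∀ v : HeightOneSpectrum (𝓞 F), (Nn : 𝓞 F) ∈ v.asIdeal → (2 : 𝓞 F) ∈ v.asIdeal →
      Irreducible (rv v f₀))
    (hodd0 : ∀ v : HeightOneSpectrum (𝓞 F), (Nn : 𝓞 F) ∈ v.asIdeal → (2 : 𝓞 F) ∉ v.asIdeal →
      Pool.Agent.N352.PF.dsc g f₀ ∉ v.asIdeal ∨
        ((Nn : 𝓞 F) ∈ v.asIdeal ^ 2 ∧ Pool.Agent.N352.PF.dsc g f₀ ∉ v.asIdeal ^ 2))
    (r : (F →+* ℝ) → ℕ) (hr1 : ∀ σ, Odd (r σ)) (hr2 : ∀ σ, r σ ≤ 2 * g + 1) :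
    FamE g (fun f : (𝓞 F)[X] => TwoS g W₀ f ∧ (∀ j, (Nn : 𝓞 F) ∣ f.coeff j - f₀.coeff j) ∧
      ∀ σ : F →+* ℝ, nR f σ = r σ) := by
  -- the distance
  have hex : ∀ σ : F →+* ℂ, ∃ ε : ℝ, 0 < ε ∧ ∀ Q : ℝ[X], Q.Monic → Q.natDegree = 2 * g + 1 →
      (∀ j < 2 * g + 1, ‖((Q.coeff j : ℝ) : ℂ) - (pz (zs (sg r σ) (g - sg r σ))).coeff j‖ ≤ ε) →
      {x : ℝ | Q.eval x = 0}.ncard =
        ((zs (sg r σ) (g - sg r σ)).filter fun ρ => (starRingEnd ℂ) ρ = ρ).card := by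
    intro σ
    refine real_roots (zs (sg r σ) (g - sg r σ)) ?_ (fun ρ h => zs_conj h)
    rw [zs_card]
    have := sg_le (g := g) hr2 σ
    omega
  choose εf hεf hεQ using hex
  obtain ⟨ε, hε, hεle⟩ : ∃ ε : ℝ, 0 < ε ∧ ∀ σ : F →+* ℂ, ε ≤ εf σ := by
    obtain ⟨σ, -, hσ⟩ := Finset.exists_min_image (Finset.univ : Finset (F →+* ℂ)) εf
      Finset.univ_nonempty
    exact ⟨εf σ, hεf σ, fun τ => hσ τ (Finset.mem_univ τ)⟩
  have hx : ∀ j : Fin (2 * g), ∃ x : F, ∀ σ : F →+* ℂ,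
      ‖σ x - (pz (zs (sg r σ) (g - sg r σ))).coeff (j : ℕ)‖ < ε / 2 := by
    intro j
    refine dense_emb (fun σ => (pz (zs (sg r σ) (g - sg r σ))).coeff (j : ℕ)) (fun σ => ?_)
      (half_pos hε)
    show (pz (zs (sg r _) (g - sg r _))).coeff (j : ℕ) = _
    rw [sg_conj, zs_coeff_conj]
  choose x hx using hx
  obtain ⟨m, hm, hz⟩ := exists_multN x
  choose z hz using hz
  refine FamE_mono (famT hspl W₀ h0 g1 g2 hLD hPR g3 g4 g5 g6 g7 g8 h2 h4 h5 F g hg Nn hNn f₀ hm0 hd0 ht0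
    hirr0 hodd0 (half_pos hε) z) ?_
  rintro B f hf ⟨hts, hc, t, ht, hn⟩
  refine ⟨hts, hc, fun σ => ?_⟩
  have hs := sg_real r σ
  have hle := sg_le (g := g) hr2 (rc σ)
  have hm1 : (1 : ℝ) ≤ m := by exact_mod_cast hm
  have ht0' : (0 : ℝ) < t := by exact_mod_cast ht
  have key := nr_real (g := g) (s := sg r (rc σ)) (m := g - sg r (rc σ)) (by omega)
    (fun Q hQ1 hQ2 hQ3 => hεQ (rc σ) Q hQ1 hQ2 fun j hj => (hQ3 j hj).trans (hεle _)) hε.le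
    hf.mon hf.deg hf.tr σ (Nat.mul_pos ht hm) (by
      intro j hj
      obtain ⟨k, hk⟩ : ∃ k : ℕ, k = 2 * g + 1 - j := ⟨_, rfl⟩
      have e1 := hn ⟨j, hj⟩ (rc σ)
      have e2 := hx ⟨j, hj⟩ (rc σ)
      have e3 : rc σ (z ⟨j, hj⟩ : F) = (m : ℂ) ^ k * rc σ (x ⟨j, hj⟩) := by
        rw [hz, map_mul, map_pow, map_natCast, hk]
      simp only at e1 e2
      rw [e3, ← hk] at e1
      rw [← hk]
      obtain ⟨a, ha⟩ : ∃ a : ℂ, a = (pz (zs (sg r (rc σ)) (g - sg r (rc σ)))).coeff j := ⟨_, rfl⟩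
      rw [← ha] at e2 ⊢
      obtain ⟨w, hw⟩ : ∃ w : ℂ, w = rc σ (f.coeff j : F) := ⟨_, rfl⟩
      rw [← hw] at e1 ⊢
      obtain ⟨c, hc⟩ : ∃ c : ℂ, c = rc σ (x ⟨j, hj⟩) := ⟨_, rfl⟩
      rw [← hc] at e1 e2
      have e4 : w - ((t * m : ℕ) : ℂ) ^ k * a = (w - (m : ℂ) ^ k * c * (t : ℂ) ^ k) +
          ((t * m : ℕ) : ℂ) ^ k * (c - a) := by
        push_cast
        rw [mul_pow]
        ring
      rw [e4]
      refine (norm_add_le _ _).trans ?_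
      rw [norm_mul, norm_pow, Complex.norm_natCast]
      have e5 : (t : ℝ) ^ k ≤ ((t * m : ℕ) : ℝ) ^ k := by
        push_cast
        exact pow_le_pow_left₀ ht0'.le (le_mul_of_one_le_right ht0'.le hm1) _
      have e6 : (0 : ℝ) < ((t * m : ℕ) : ℝ) ^ k := lt_of_lt_of_le (by positivity) e5
      calc _ ≤ ε / 2 * (t : ℝ) ^ k + ((t * m : ℕ) : ℝ) ^ k * (ε / 2) :=
            add_le_add e1 (mul_le_mul_of_nonneg_left e2.le e6.le)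
        _ ≤ ε / 2 * ((t * m : ℕ) : ℝ) ^ k + ((t * m : ℕ) : ℝ) ^ k * (ε / 2) := by
            gcongr
        _ = _ := by ring)
  rw [key, hs]
  obtain ⟨b, hb⟩ := hr1 σ
  omega

end Pool.Agent.U376.RL
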