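import Pool.Agent.U376.RL.Emb
import Pool.Agent.N783.CF.Final

/-!
# Counting fields with local conditions at finitely many finite and at all infinite places (helper376)
-/

set_option autoImplicit false
set_option linter.all false

open Polynomial NumberField IsDedekindDomain
open scoped Classical

namespace Pool.Agent.U376.RL

open Pool.Agent.U376.RF
open Pool.Agent.N783.PF
open Pool.Agent.N352.PF (rv)

/-- The ring of integers is generated by the zero. -/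
theorem adj_int {F L : Type} [Field F] [NumberField F] [Field L] [NumberField L] [Algebra F L]
    {g : ℕ} {f : (𝓞 F)[X]} {θ : L} (h : IsGen g f θ)
    (hs : SqF g f) (t : 𝓞 L) (ht : algebraMap (𝓞 L) L t = θ) :
    Algebra.adjoin (𝓞 F) ({t} : Set (𝓞 L)) = ⊤ := by
  rw [eq_top_iff]
  rintro x -
  have hx0 : IsIntegral ℤ (algebraMap (𝓞 L) L x) := RingOfIntegers.isIntegral_coe x
  obtain ⟨v, hv⟩ := (Pool.Agent.N783.PF.int g F L f θ h hs (algebraMap (𝓞 L) L x)).1 hx0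
  have hx : x = ∑ i, algebraMap (𝓞 F) (𝓞 L) (v i) * t ^ (i : ℕ) := by
    apply FaithfulSMul.algebraMap_injective (𝓞 L) L
    rw [hv, map_sum]
    refine Finset.sum_congr rfl fun i _ => ?_
    rw [map_mul, map_pow, ht]
    rfl
  rw [hx]
  have ht1 : t ∈ Algebra.adjoin (𝓞 F) ({t} : Set (𝓞 L)) :=
    Algebra.subset_adjoin (Set.mem_singleton t)
  exact Subalgebra.sum_mem _ fun i _ =>
    Subalgebra.mul_mem _ (Subalgebra.algebraMap_mem _ _) (Subalgebra.pow_mem _ ht1 _)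

theorem cntR (F : Type) [Field F] [NumberField F] (g : ℕ) (hg : 1 ≤ g) (N : ℕ) (hN : 0 < N)
    (f₀ : (𝓞 F)[X]) (hm0 : f₀.Monic) (hd0 : f₀.natDegree = 2 * g + 1) (ht0 : f₀.coeff (2 * g) = 0)
    (hirr0 : ∀ 𝔭 : Ideal (𝓞 F), 𝔭.IsPrime → 𝔭 ≠ ⊥ → (N : 𝓞 F) ∈ 𝔭 → (2 : 𝓞 F) ∈ 𝔭 →
      Irreducible (f₀.map (Ideal.Quotient.mk 𝔭)))
    (hodd0 : ∀ 𝔭 : Ideal (𝓞 F), 𝔭.IsPrime → 𝔭 ≠ ⊥ → (N : 𝓞 F) ∈ 𝔭 → (2 : 𝓞 F) ∉ 𝔭 →
      f₀.discr ∉ 𝔭 ∨ ((N : 𝓞 F) ∈ 𝔭 ^ 2 ∧ f₀.discr ∉ 𝔭 ^ 2))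
    (r : (F →+* ℝ) → ℕ) (hr1 : ∀ σ, Odd (r σ)) (hr2 : ∀ σ, r σ ≤ 2 * g + 1) :
    CntE g (fun f : (𝓞 F)[X] => (∀ j, (N : 𝓞 F) ∣ f.coeff j - f₀.coeff j) ∧
      ∀ σ : F →+* ℝ, nR f σ = r σ) := by
  have hfam := famR Pool.Agent.N490.PF.pts Pool.Agent.N75.PF.cu
    Pool.Agent.N364.PF.cl Pool.Agent.N189.PF.ld Pool.Agent.N195.PF.pr Pool.Agent.N352.PF.bxT
    Pool.Agent.N935.PF.WK.wk
    (Pool.Agent.N352.PF.STR331.str Pool.Agent.N75.PF.cu Pool.Agent.N364.PF.cl Pool.Agent.N195.PF.pf)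
    Pool.Agent.N195.PF.dscp Pool.Agent.N823.PF.gf Pool.Agent.N195.PF.pf
    Pool.Agent.N783.PF.bad Pool.Agent.N783.PF.sqf Pool.Agent.N667.PF.irr g hg N hN f₀ hm0 hd0 ht0
    (fun v hv h2v => hirr0 v.asIdeal v.isPrime v.ne_bot hv h2v)
    (fun v hv h2v => by
      rw [dsc_discr hg hm0 hd0, dsc_discr hg hm0 hd0]
      exact hodd0 v.asIdeal v.isPrime v.ne_bot hv h2v) r hr1 hr2
  exact cntE hg (cn1E hg (manyE hg Pool.Agent.N783.CF.few hfam)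
    (Pool.Agent.N914.CF.t_FIB Pool.Agent.N490.PF.pts Pool.Agent.N783.PF.int)
    Pool.Agent.N602.CF.t_UNI Pool.Agent.N793.CF.t_DB Pool.Agent.N526.CF.t_ADJ
    Pool.Agent.N692.CF.t_NUN Pool.Agent.N783.CF.finf Pool.Agent.N490.PF.pts)
    Pool.Agent.N783.CF.finf

end Pool.Agent.U376.RL
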