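import Pool.Agent.U376.RF.Cnt

/-!
# Counting fields by the height of the polynomial (helper376)
-/

set_option autoImplicit false
set_option linter.all false

open Polynomial NumberField Matrix
open scoped Classical

namespace Pool.Agent.U376.RL

open Pool.Agent.U376.RF
open Pool.Agent.N352.PJ (dd)
open Pool.Agent.N783.PF
open Pool.Agent.N783.CF
open Pool.Agent.N99.PF (ht_card good_card)

variable {F : Type} [Field F] [NumberField F]

/-- The fields of the polynomials of height at most `B`. -/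
def FldsB (g : ℕ) (E : (𝓞 F)[X] → Prop) (δ : ℝ) (B : ℕ) :
    Set (IntermediateField F (AlgebraicClosure F)) :=
  {L | ∃ (_ : NumberField L) (f : (𝓞 F)[X]) (θ : L), IsGen g f θ ∧ Gd g B δ f ∧ NUnit g f ∧ E f}

theorem cn1B {g : ℕ} {E : (𝓞 F)[X] → Prop} (hg : 1 ≤ g) (hMANY : ManyE g E) (hFIB : S_FIB)
    (hUNI : S_UNI) (hDB : S_DB) (hADJ : S_ADJ) (hNUN : S_NUN) (hFINF : S_FINF)
    (hPTS : Pool.Agent.N783.PF.S_PTS) : ∃ δ : ℝ, 0 < δ ∧ ∃ c : ℝ, 0 < c ∧ ∃ B₀ : ℕ, ∀ B ≥ B₀,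
      1 ≤ B ∧ (FldsB g E δ B).Finite ∧
      c * (B : ℝ) ^ (Module.finrank ℚ F * dd g) ≤ ((FldsB g E δ B).ncard : ℝ) := by
  obtain ⟨δ, hδ, c, hc, B₀, hM⟩ := hMANY
  obtain ⟨C₁, B₁, hF⟩ := hFIB g F hg δ hδ
  obtain ⟨CD, hCD, hD⟩ := hDB g F hg
  obtain ⟨B₂, hN⟩ := hNUN g F hg δ hδ
  obtain ⟨-, CP, hCP, -, hP⟩ := hPTS F
  have hPf : {a : 𝓞 F | Bd (a : F) C₁}.Finite := by
    refine ((hP ⊤ 0 (max C₁ 0) top_ne_bot (le_max_right _ _)).1).subset ?_
    intro a ha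
    exact ⟨Submodule.mem_top, fun σ => (ha σ).trans (le_max_left _ _)⟩
  obtain ⟨M, hMd⟩ : ∃ M : ℕ, M = max hPf.toFinset.card 1 := ⟨_, rfl⟩
  have hM1 : 1 ≤ M := by rw [hMd]; exact le_max_right _ _
  have hMr : (0 : ℝ) < M := by exact_mod_cast hM1
  refine ⟨δ, hδ, c / M, by positivity, max (max B₀ B₁) (max B₂ 1), ?_⟩
  intro B hB
  have hB0 : B₀ ≤ B := (le_max_left _ _).trans ((le_max_left _ _).trans hB)
  have hB1 : B₁ ≤ B := (le_max_right _ _).trans ((le_max_left _ _).trans hB)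
  have hB2 : B₂ ≤ B := (le_max_left _ _).trans ((le_max_right _ _).trans hB)
  have hB3 : 1 ≤ B := (le_max_right _ _).trans ((le_max_right _ _).trans hB)
  have hB3r : (1 : ℝ) ≤ B := by exact_mod_cast hB3
  obtain ⟨hG, hGc⟩ := hM B hB0
  obtain ⟨X, hX⟩ : ∃ X : ℝ, X = max CD 1 * (B : ℝ) ^ (Module.finrank ℚ F * (2 * g * (2 * g + 1))) :=
    ⟨_, rfl⟩
  have hX1 : 1 ≤ X := by
    rw [hX]
    exact one_le_mul_of_one_le_of_one_le (le_max_right _ _) (one_le_pow₀ hB3r)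
  have hXD : CD * (B : ℝ) ^ (Module.finrank ℚ F * (2 * g * (2 * g + 1))) ≤ X := by
    rw [hX]
    exact mul_le_mul_of_nonneg_right (le_max_left _ _) (by positivity)
  have hfin : (FldsB g E δ B).Finite := by
    refine (hFINF F (2 * g + 1) X (by omega) hX1).subset ?_
    rintro L ⟨hn, f, θ, hgen, hf, -, -⟩
    exact ⟨hgen.rank, hn, (hD B L f θ hB3 hgen hf.ht).trans hXD⟩
  refine ⟨hB3, hfin, ?_⟩
  have hch : ∀ f ∈ {f : (𝓞 F)[X] | Gd g B δ f ∧ E f},
      ∃ (L : IntermediateField F (AlgebraicClosure F)), ∃ (_ : NumberField L) (θ : L),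
        IsGen g f θ := fun f hf => hADJ g F f hf.1.ht.mon hf.1.ht.deg hf.1.irr
  choose! Lf hLf using hch
  -- the fields are counted
  have hmem : ∀ f ∈ hG.toFinset, Lf f ∈ hfin.toFinset := by
    intro f hf
    have hf'' : Gd g B δ f ∧ E f := hG.mem_toFinset.1 hf
    have hf' : Gd g B δ f := hf''.1
    obtain ⟨hn, θ, hgen⟩ := hLf f hf''
    exact hfin.mem_toFinset.2 ⟨hn, f, θ, hgen, hf',
      hN B hB2 f hf'.big hf'.irr hf'.ht.mon hf'.ht.deg, hf''.2⟩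
  -- the fibres
  have hfib : ∀ L ∈ hG.toFinset.image Lf, (hG.toFinset.filter fun f => Lf f = L).card ≤ M := by
    intro L hL
    obtain ⟨f₀, hf₀, hfL⟩ := Finset.mem_image.1 hL
    have hf₀'' : Gd g B δ f₀ ∧ E f₀ := hG.mem_toFinset.1 hf₀
    have hf₀' : Gd g B δ f₀ := hf₀''.1
    have h0 : ∃ (_ : NumberField L) (θ : L), IsGen g f₀ θ := hfL ▸ hLf f₀ hf₀''
    obtain ⟨hn, θ, hgen⟩ := h0
    have hsub : (hG.toFinset.filter fun f => Lf f = L) ⊆
        hPf.toFinset.image (fun a => f₀.scaleRoots a) := by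
      intro f hf
      obtain ⟨hf1, hf2⟩ := Finset.mem_filter.1 hf
      have hf1'' : Gd g B δ f ∧ E f := hG.mem_toFinset.1 hf1
      have hf1' : Gd g B δ f := hf1''.1
      have h1 : ∃ (_ : NumberField L) (θ : L), IsGen g f θ := hf2 ▸ hLf f hf1''
      obtain ⟨hn', θ', hgen'⟩ := h1
      obtain ⟨a, ha, hθ⟩ := hF B hB1 L f₀ f θ θ' hgen hgen' hf₀'.ht hf₀'.sqf hf₀'.big hf1'.ht
      exact Finset.mem_image.2 ⟨a, hPf.mem_toFinset.2 ha,
        (hUNI g F L f₀ f θ θ' a hgen hgen' hθ).symm⟩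
    calc (hG.toFinset.filter fun f => Lf f = L).card ≤
        (hPf.toFinset.image (fun a => f₀.scaleRoots a)).card := Finset.card_le_card hsub
      _ ≤ hPf.toFinset.card := Finset.card_image_le
      _ ≤ M := by rw [hMd]; exact le_max_left _ _
  have hcard : hG.toFinset.card ≤ M * hfin.toFinset.card := by
    refine (Finset.card_le_mul_card_image _ M hfib).trans ?_
    refine Nat.mul_le_mul_left _ (Finset.card_le_card ?_)
    intro L hL
    obtain ⟨f, hf, rfl⟩ := Finset.mem_image.1 hL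
    exact hmem f hf
  rw [Set.ncard_eq_toFinset_card _ hG] at hGc
  rw [Set.ncard_eq_toFinset_card _ hfin]
  have hcardr : (hG.toFinset.card : ℝ) ≤ M * (hfin.toFinset.card : ℝ) := by exact_mod_cast hcard
  rw [div_mul_eq_mul_div, div_le_iff₀ hMr]
  linarith

end Pool.Agent.U376.RL
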