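import Mathlib

/-!
# The splitting algebra of a polynomial is spanned by monomials (helper376)
-/

set_option autoImplicit false
set_option linter.all false

open Polynomial
open scoped Classical

namespace Pool.Agent.U376.RL

variable {K Ω : Type} [Field K] [Field Ω] [Algebra K Ω]

/-- The algebra generated by the first `k` zeros. -/
def Ak (K : Type) {Ω : Type} [Field K] [Field Ω] [Algebra K Ω] (θ : ℕ → Ω) (k : ℕ) :
    Subalgebra K Ω := Algebra.adjoin K (θ '' {i | i < k})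

theorem Ak_mono (θ : ℕ → Ω) {k l : ℕ} (h : k ≤ l) : Ak K θ k ≤ Ak K θ l :=
  Algebra.adjoin_mono (Set.image_mono fun i hi => lt_of_lt_of_le hi h)

theorem mem_Ak (θ : ℕ → Ω) {i k : ℕ} (h : i < k) : θ i ∈ Ak K θ k :=
  Algebra.subset_adjoin ⟨i, h, rfl⟩

theorem exists_quot {n : ℕ} (θ : ℕ → Ω) (P : K[X]) (hPm : P.Monic)
    (hP : P.map (algebraMap K Ω) = ∏ i ∈ Finset.range n, (X - C (θ i))) : ∀ k ≤ n,
    ∃ q : (Ak K θ k)[X], q.Monic ∧
      q.map (algebraMap (Ak K θ k) Ω) = ∏ i ∈ Finset.Ico k n, (X - C (θ i)) := by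
  intro k
  induction k with
  | zero =>
    intro _
    refine ⟨P.map (algebraMap K (Ak K θ 0)), hPm.map _, ?_⟩
    rw [Polynomial.map_map, ← IsScalarTower.algebraMap_eq, hP, Finset.range_eq_Ico]
  | succ k ih =>
    intro hk
    obtain ⟨q, hqm, hq⟩ := ih (by omega)
    obtain ⟨ι, hι⟩ : ∃ ι : Ak K θ k →+* Ak K θ (k + 1),
        ι = (Subalgebra.inclusion (Ak_mono θ (Nat.le_succ k))).toRingHom := ⟨_, rfl⟩
    have hιc : (algebraMap (Ak K θ (k + 1)) Ω).comp ι = algebraMap (Ak K θ k) Ω := by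
      rw [hι]
      rfl
    have hd : (X - C (⟨θ k, mem_Ak θ (Nat.lt_succ_self k)⟩ : Ak K θ (k + 1))).Monic :=
      monic_X_sub_C _
    have hmap : ((q.map ι) /ₘ (X - C (⟨θ k, mem_Ak θ (Nat.lt_succ_self k)⟩ : Ak K θ (k + 1)))).map
        (algebraMap (Ak K θ (k + 1)) Ω) = ∏ i ∈ Finset.Ico (k + 1) n, (X - C (θ i)) := by
      rw [Polynomial.map_divByMonic _ hd, Polynomial.map_map, hιc, hq, Polynomial.map_sub, map_X,
        map_C]
      have e1 : (algebraMap (Ak K θ (k + 1)) Ω) ⟨θ k, mem_Ak θ (Nat.lt_succ_self k)⟩ = θ k := rfl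
      rw [e1, Finset.prod_eq_prod_Ico_succ_bot (by omega : k < n)]
      exact mul_divByMonic_cancel_left _ (monic_X_sub_C _)
    refine ⟨_, ?_, hmap⟩
    refine monic_of_injective (FaithfulSMul.algebraMap_injective (Ak K θ (k + 1)) Ω) ?_
    rw [hmap]
    exact monic_prod_of_monic _ _ fun i _ => monic_X_sub_C _

theorem exists_poly (θ : ℕ → Ω) (k : ℕ) {x : Ω} (hx : x ∈ Ak K θ (k + 1)) :
    ∃ p : (Ak K θ k)[X], x = p.eval₂ (algebraMap (Ak K θ k) Ω) (θ k) := by
  refine Algebra.adjoin_induction ?_ ?_ ?_ ?_ hx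
  · rintro _ ⟨i, hi, rfl⟩
    have hi : i < k + 1 := hi
    rcases Nat.lt_succ_iff_lt_or_eq.1 hi with h | h
    · exact ⟨C ⟨θ i, mem_Ak θ h⟩, by rw [eval₂_C]; rfl⟩
    · subst h
      exact ⟨X, by rw [eval₂_X]⟩
  · intro r
    exact ⟨C (algebraMap K _ r), by rw [eval₂_C]; rfl⟩
  · rintro _ _ _ _ ⟨p, rfl⟩ ⟨q, rfl⟩
    exact ⟨p + q, by rw [eval₂_add]⟩
  · rintro _ _ _ _ ⟨p, rfl⟩ ⟨q, rfl⟩
    exact ⟨p * q, by rw [eval₂_mul]⟩

/-- the monomials -/
noncomputable def mon (n : ℕ) (θ : ℕ → Ω) (k : ℕ) (a : (i : Fin k) → Fin (n - (i : ℕ))) : Ω :=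
  ∏ i : Fin k, θ (i : ℕ) ^ ((a i : ℕ))

theorem span_mon {n : ℕ} (θ : ℕ → Ω) (P : K[X]) (hPm : P.Monic)
    (hP : P.map (algebraMap K Ω) = ∏ i ∈ Finset.range n, (X - C (θ i))) : ∀ k ≤ n,
    ∀ x ∈ Ak K θ k, x ∈ Submodule.span K (Set.range (mon n θ k)) := by
  intro k
  induction k with
  | zero =>
    intro _ x hx
    have h1 : Ak K θ 0 = ⊥ := by
      have : θ '' {i | i < 0} = ∅ := by
        rw [Set.image_eq_empty]
        ext i
        simp
      rw [Ak, this, Algebra.adjoin_empty]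
    rw [h1, Algebra.mem_bot] at hx
    obtain ⟨r, rfl⟩ := hx
    have h2 : algebraMap K Ω r = r • mon n θ 0 (fun i => i.elim0) := by
      rw [mon, Finset.univ_eq_empty, Finset.prod_empty, Algebra.smul_def, mul_one]
    rw [h2]
    exact Submodule.smul_mem _ _ (Submodule.subset_span ⟨_, rfl⟩)
  | succ k ih =>
    intro hk x hx
    obtain ⟨q, hqm, hq⟩ := exists_quot θ P hPm hP k (by omega)
    obtain ⟨p, hp⟩ := exists_poly θ k hx
    have hqd : q.natDegree = n - k := by
      have h1 := congrArg natDegree hq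
      rw [hqm.natDegree_map, natDegree_prod_of_monic _ _ fun i _ => monic_X_sub_C _] at h1
      simp only [natDegree_X_sub_C, Finset.sum_const, Nat.card_Ico, smul_eq_mul, mul_one] at h1
      exact h1
    have hq0 : q.eval₂ (algebraMap (Ak K θ k) Ω) (θ k) = 0 := by
      rw [← eval_map, hq, eval_prod]
      exact Finset.prod_eq_zero (Finset.mem_Ico.2 ⟨le_rfl, by omega⟩) (by simp)
    have h2 : x = (p %ₘ q).eval₂ (algebraMap (Ak K θ k) Ω) (θ k) := by
      have h3 := congrArg (eval₂ (algebraMap (Ak K θ k) Ω) (θ k)) (modByMonic_add_div p q)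
      rw [eval₂_add, eval₂_mul, hq0, zero_mul, add_zero] at h3
      rw [hp, h3]
    have hlt : (p %ₘ q).natDegree < n - k := by
      rw [← hqd]
      refine natDegree_modByMonic_lt p hqm ?_
      intro h1
      rw [h1, natDegree_one] at hqd
      omega
    rw [h2, eval₂_eq_sum_range' _ hlt]
    refine Submodule.sum_mem _ fun j hj => ?_
    have hj' : j < n - k := Finset.mem_range.1 hj
    have hc := ih (by omega) (((p %ₘ q).coeff j : Ak K θ k) : Ω) ((p %ₘ q).coeff j).2
    have h4 : ∀ y ∈ Submodule.span K (Set.range (mon n θ k)),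
        y * θ k ^ j ∈ Submodule.span K (Set.range (mon n θ (k + 1))) := by
      intro y hy
      refine Submodule.span_induction ?_ ?_ ?_ ?_ hy
      · rintro _ ⟨a, rfl⟩
        refine Submodule.subset_span ⟨Fin.snoc (α := fun i : Fin (k + 1) => Fin (n - (i : ℕ)))
          (fun i => a i) ⟨j, hj'⟩, ?_⟩
        rw [mon, Fin.prod_univ_castSucc]
        simp only [Fin.snoc_castSucc, Fin.snoc_last, Fin.val_castSucc, Fin.val_last]
        rfl
      · rw [zero_mul]; exact Submodule.zero_mem _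
      · intro u v _ _ hu hv
        rw [add_mul]; exact Submodule.add_mem _ hu hv
      · intro r u _ hu
        rw [smul_mul_assoc]; exact Submodule.smul_mem _ _ hu
    exact h4 _ hc

/-- the sum of the exponents -/
theorem sum_exp (n : ℕ) : 2 * ∑ a : ((i : Fin n) → Fin (n - (i : ℕ))), ∑ i, ((a i : ℕ)) =
    n.factorial * (n * (n - 1) / 2) := by
  have h1 : ∑ a : ((i : Fin n) → Fin (n - (i : ℕ))), ∑ i, ((a i : ℕ)) =
      ∑ a : ((i : Fin n) → Fin (n - (i : ℕ))), ∑ i, (((a i).rev : ℕ)) := by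
    refine (Fintype.sum_equiv (Equiv.piCongrRight fun i => Fin.revPerm) _ _ fun a => ?_)
    refine Finset.sum_congr rfl fun i _ => ?_
    simp
  have h2 : ∀ a : ((i : Fin n) → Fin (n - (i : ℕ))), ∑ i, ((a i : ℕ)) + ∑ i, (((a i).rev : ℕ)) =
      n * (n - 1) / 2 := by
    intro a
    rw [← Finset.sum_add_distrib]
    have h3 : ∀ i : Fin n, (a i : ℕ) + ((a i).rev : ℕ) = n - 1 - (i : ℕ) := by
      intro i
      rw [Fin.val_rev]
      have := (a i).2
      omega
    rw [Finset.sum_congr rfl fun i _ => h3 i, Fin.sum_univ_eq_sum_range (fun i => n - 1 - i) n,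
      Finset.sum_range_reflect (fun i => i) n, Finset.sum_range_id]
  have hcard : Fintype.card ((i : Fin n) → Fin (n - (i : ℕ))) = n.factorial := by
    rw [Fintype.card_pi]
    simp only [Fintype.card_fin]
    rw [Fin.prod_univ_eq_prod_range (fun i => n - i) n, ← Nat.descFactorial_eq_prod_range,
      Nat.descFactorial_self]
  have h4 : ∑ a : ((i : Fin n) → Fin (n - (i : ℕ))), (∑ i, ((a i : ℕ)) + ∑ i, (((a i).rev : ℕ))) =
      n.factorial * (n * (n - 1) / 2) := by
    rw [Finset.sum_congr rfl fun a _ => h2 a, Finset.sum_const, Finset.card_univ, hcard,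
      smul_eq_mul]
  rw [Finset.sum_add_distrib, ← h1] at h4
  omega

end Pool.Agent.U376.RL
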