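import Pool.Agent.U376.RL.Gal2
import Pool.Agent.N793.CF.DB

/-!
# The discriminant of the splitting field (helper376)
-/

set_option autoImplicit false
set_option linter.all false

open Polynomial NumberField
open scoped Classical

namespace Pool.Agent.U376.RL

open Pool.Agent.N783.PF

theorem prod_list {Ω : Type} [Field Ω] (l : List Ω) :
    ∏ i ∈ Finset.range l.length, (X - C (l.getD i 0)) = (l.map (fun x => X - C x)).prod := by
  induction l with
  | nil => simp
  | cons a l ih =>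
    rw [List.length_cons, Finset.prod_range_succ', List.map_cons, List.prod_cons, mul_comm]
    simp only [List.getD_cons_succ, List.getD_cons_zero]
    rw [ih]

theorem exists_roots {Ω : Type} [Field Ω] [IsAlgClosed Ω] (Q : Polynomial Ω) (hQ : Q.Monic) {n : ℕ}
    (hn : Q.natDegree = n) : ∃ θ : ℕ → Ω, Q = ∏ i ∈ Finset.range n, (X - C (θ i)) := by
  have hs := IsAlgClosed.splits Q
  have hc : Q.roots.toList.length = n := by
    rw [Multiset.length_toList, ← hs.natDegree_eq_card_roots, hn]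
  refine ⟨fun i => Q.roots.toList.getD i 0, ?_⟩
  have h1 := prod_list Q.roots.toList
  rw [hc] at h1
  rw [h1, ← Multiset.prod_coe, ← Multiset.map_coe, Multiset.coe_toList]
  exact hs.eq_prod_roots_of_monic hQ

variable {F : Type} [Field F] [NumberField F]

theorem int_of_root {L : Type} [Field L] [NumberField L] [Algebra F L] (f : (𝓞 F)[X])
    (hm : f.Monic) (t : L) (h : aeval t (fF f) = 0) : IsIntegral ℤ t := by
  have h1 : IsIntegral (𝓞 F) t := by
    refine ⟨f, hm, ?_⟩
    rw [aeval_def] at h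
    have h2 : eval₂ (algebraMap F L) t (f.map (algebraMap (𝓞 F) F)) = 0 := h
    rw [eval₂_map] at h2
    exact h2
  exact isIntegral_trans (R := ℤ) (A := 𝓞 F) t h1

/-- the splitting field of `f` in the algebraic closure -/
noncomputable def spN (f : (𝓞 F)[X]) : IntermediateField F (AlgebraicClosure F) :=
  IntermediateField.adjoin F ((fF f).rootSet (AlgebraicClosure F))

/-- The monomials in the roots span the splitting field. -/
theorem exists_mon {n : ℕ} (f : (𝓞 F)[X]) (hm : f.Monic) (hd : f.natDegree = n) :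
    ∃ t : ℕ → spN f, (∀ i, aeval (t i) (fF f) = 0 ∨ t i = 0) ∧
      ⊤ ≤ Submodule.span F (Set.range (mon n t n)) := by
  obtain ⟨P, hP⟩ : ∃ P : F[X], P = fF f := ⟨_, rfl⟩
  have hPm : P.Monic := by rw [hP]; exact hm.map _
  have hPd : P.natDegree = n := by
    rw [hP]
    show (f.map _).natDegree = n
    rw [hm.natDegree_map, hd]
  obtain ⟨θ, hθ⟩ := exists_roots (P.map (algebraMap F (AlgebraicClosure F))) (hPm.map _)
    (by rw [hPm.natDegree_map, hPd])
  have hroot : ∀ i < n, θ i ∈ (fF f).rootSet (AlgebraicClosure F) := by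
    intro i hi
    rw [← hP, mem_rootSet]
    refine ⟨hPm.ne_zero, ?_⟩
    rw [aeval_def, ← eval_map, hθ, eval_prod]
    exact Finset.prod_eq_zero (Finset.mem_range.2 hi) (by simp)
  have hmem : ∀ i < n, θ i ∈ spN f := fun i hi => IntermediateField.subset_adjoin F _ (hroot i hi)
  obtain ⟨t, ht⟩ : ∃ t : ℕ → spN f, t = fun i => if h : i < n then ⟨θ i, hmem i h⟩ else 0 := ⟨_, rfl⟩
  have ht1 : ∀ i < n, ((t i : spN f) : AlgebraicClosure F) = θ i := by
    intro i hi
    rw [ht]
    simp only [dif_pos hi]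
  refine ⟨t, fun i => ?_, ?_⟩
  · by_cases hi : i < n
    · left
      apply (algebraMap (spN f) (AlgebraicClosure F)).injective
      rw [map_zero, ← aeval_algebraMap_apply]
      have e1 : algebraMap (spN f) (AlgebraicClosure F) (t i) = θ i := ht1 i hi
      rw [e1]
      exact (mem_rootSet.1 (hroot i hi)).2
    · right
      rw [ht]
      simp only [dif_neg hi]
  · rintro x -
    have hx : (x : AlgebraicClosure F) ∈ Ak F θ n := by
      have h1 : (spN f).toSubalgebra = Algebra.adjoin F ((fF f).rootSet (AlgebraicClosure F)) :=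
        IntermediateField.adjoin_toSubalgebra _
      have h2 : (x : AlgebraicClosure F) ∈ (spN f).toSubalgebra := x.2
      rw [h1] at h2
      refine Algebra.adjoin_mono ?_ h2
      intro y hy
      have h3 := (mem_rootSet.1 hy).2
      rw [← hP, aeval_def, ← eval_map, hθ, eval_prod, Finset.prod_eq_zero_iff] at h3
      obtain ⟨i, hi, h4⟩ := h3
      rw [eval_sub, eval_X, eval_C, sub_eq_zero] at h4
      exact ⟨i, Finset.mem_range.1 hi, h4.symm⟩
    have h5 := span_mon θ P hPm hθ n le_rfl _ hx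
    have h6 : Set.range (mon n θ n) = (spN f).val.toLinearMap '' Set.range (mon n t n) := by
      rw [← Set.range_comp]
      congr 1
      funext a
      show mon n θ n a = ((mon n t n a : spN f) : AlgebraicClosure F)
      unfold mon
      have e1 : ((∏ i : Fin n, t (i : ℕ) ^ ((a i : ℕ)) : spN f) : AlgebraicClosure F) =
          ∏ i : Fin n, ((t (i : ℕ) : spN f) : AlgebraicClosure F) ^ ((a i : ℕ)) := by
        have := map_prod (algebraMap (spN f) (AlgebraicClosure F))
          (fun i : Fin n => t (i : ℕ) ^ ((a i : ℕ))) Finset.univ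
        refine this.trans (Finset.prod_congr rfl fun i _ => ?_)
        rw [map_pow]
        rfl
      rw [e1]
      exact Finset.prod_congr rfl fun i _ => by rw [ht1 _ i.2]
    rw [h6, Submodule.span_image] at h5
    obtain ⟨y, hy, hyx⟩ := h5
    have : y = x := Subtype.ext hyx
    rw [← this]
    exact hy

/-- **The discriminant of the splitting field.** -/
theorem disc_spN (n : ℕ) (hn : 1 ≤ n) : ∃ C : ℝ, 1 ≤ C ∧ ∀ (B : ℕ) (f : (𝓞 F)[X])
    [NumberField (spN f)], 1 ≤ B → f.Monic → f.natDegree = n →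
    (∀ (σ : F →+* ℂ) (z : ℂ), ((fF f).map σ).eval z = 0 → ‖z‖ ≤ 2 * B) →
    ((|NumberField.discr (spN f)| : ℤ) : ℝ) ≤
      C * (B : ℝ) ^ (Module.finrank ℚ F * (n.factorial * (n * (n - 1) / 2))) := by
  obtain ⟨c, hc⟩ : ∃ c : ℝ, c = 1 + ∑ σ : F →+* ℂ, ∑ i, ‖σ (integralBasis F i)‖ := ⟨_, rfl⟩
  have hc1 : 1 ≤ c := by
    rw [hc]
    have : 0 ≤ ∑ σ : F →+* ℂ, ∑ i, ‖σ (integralBasis F i)‖ :=
      Finset.sum_nonneg fun _ _ => Finset.sum_nonneg fun _ _ => norm_nonneg _
    linarith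
  have hcb : ∀ (σ : F →+* ℂ) i, ‖σ (integralBasis F i)‖ ≤ c := by
    intro σ i
    have h1 : ‖σ (integralBasis F i)‖ ≤ ∑ i, ‖σ (integralBasis F i)‖ :=
      Finset.single_le_sum (f := fun i => ‖σ (integralBasis F i)‖) (fun _ _ => norm_nonneg _) (Finset.mem_univ i)
    have h2 : ∑ i, ‖σ (integralBasis F i)‖ ≤ ∑ σ : F →+* ℂ, ∑ i, ‖σ (integralBasis F i)‖ :=
      Finset.single_le_sum (f := fun σ : F →+* ℂ => ∑ i, ‖σ (integralBasis F i)‖)
        (fun _ _ => Finset.sum_nonneg fun _ _ => norm_nonneg _) (Finset.mem_univ σ)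
    rw [hc]
    linarith
  obtain ⟨d, hd⟩ : ∃ d : ℕ, d = Module.finrank ℚ F := ⟨_, rfl⟩
  rw [← hd]
  obtain ⟨S, hS⟩ : ∃ S : ℕ, S = ∑ a : ((i : Fin n) → Fin (n - (i : ℕ))), ∑ i, ((a i : ℕ)) :=
    ⟨_, rfl⟩
  have hS2 : 2 * S = n.factorial * (n * (n - 1) / 2) := by rw [hS]; exact sum_exp n
  have hcardI : Fintype.card ((i : Fin n) → Fin (n - (i : ℕ))) = n.factorial := by
    rw [Fintype.card_pi]
    simp only [Fintype.card_fin]
    rw [Fin.prod_univ_eq_prod_range (fun i => n - i) n, ← Nat.descFactorial_eq_prod_range,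
      Nat.descFactorial_self]
  obtain ⟨K, hK⟩ : ∃ K : ℝ, K = (Nat.factorial (d * n.factorial) : ℝ) *
      (c ^ n.factorial * 2 ^ S) ^ d := ⟨_, rfl⟩
  have hfac1 : (1 : ℝ) ≤ (Nat.factorial (d * n.factorial) : ℝ) := by
    exact_mod_cast Nat.one_le_iff_ne_zero.2 (Nat.factorial_ne_zero _)
  have hK1 : 1 ≤ K := by
    rw [hK]
    refine one_le_mul_of_one_le_of_one_le hfac1 (one_le_pow₀ ?_)
    exact one_le_mul_of_one_le_of_one_le (one_le_pow₀ hc1) (one_le_pow₀ one_le_two)
  refine ⟨K ^ 2, one_le_pow₀ hK1, ?_⟩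
  intro B f _ hB hm hdeg hroot
  have hBr : (1 : ℝ) ≤ B := by exact_mod_cast hB
  obtain ⟨t, ht, hspan⟩ := exists_mon f hm hdeg
  obtain ⟨κ, a, hainj, haspan, hali⟩ := exists_linearIndependent' F (mon n t n)
  haveI : Finite κ := Finite.of_injective a hainj
  haveI : Fintype κ := Fintype.ofFinite κ
  obtain ⟨b0, hb0⟩ : ∃ b0 : Module.Basis κ F (spN f), ∀ x, b0 x = mon n t n (a x) := by
    refine ⟨Module.Basis.mk hali (by rw [haspan]; exact hspan), fun x => ?_⟩
    rw [Module.Basis.mk_apply]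
    rfl
  obtain ⟨b, hb⟩ : ∃ b : Module.Basis (Module.Free.ChooseBasisIndex ℤ (𝓞 F) × κ) ℚ (spN f),
      ∀ i x, b (i, x) = algebraMap F (spN f) (integralBasis F i) * mon n t n (a x) := by
    refine ⟨(integralBasis F).smulTower b0, fun i x => ?_⟩
    rw [Module.Basis.smulTower_apply, hb0, Algebra.smul_def]
  have hti : ∀ i, IsIntegral ℤ (t i) := by
    intro i
    rcases ht i with h | h
    · exact int_of_root f hm (t i) h
    · rw [h]
      exact isIntegral_zero
  have hint : ∀ k, IsIntegral ℤ (b k) := by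
    rintro ⟨i, x⟩
    rw [hb]
    refine IsIntegral.mul ?_ (IsIntegral.prod _ fun j _ => (hti _).pow _)
    have h1 : IsIntegral ℤ (integralBasis F i) := by
      rw [integralBasis_apply]
      exact RingOfIntegers.isIntegral_coe _
    exact h1.map (IsScalarTower.toAlgHom ℤ F (spN f))
  have htb : ∀ (τ : spN f →+* ℂ) (i : ℕ), ‖τ (t i)‖ ≤ 2 * B := by
    intro τ i
    rcases ht i with h | h
    · refine hroot (τ.comp (algebraMap F (spN f))) _ ?_
      rw [eval_map, ← hom_eval₂, ← aeval_def, h, map_zero]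
    · rw [h, map_zero, norm_zero]
      positivity
  have hβ : ∀ (τ : spN f →+* ℂ) (k : Module.Free.ChooseBasisIndex ℤ (𝓞 F) × κ),
      ‖τ (b k)‖ ≤ c * (2 * (B : ℝ)) ^ (∑ j, ((a k.2 j : ℕ))) := by
    rintro τ ⟨i, x⟩
    rw [hb, map_mul, norm_mul]
    have h1 : ‖τ (algebraMap F (spN f) (integralBasis F i))‖ ≤ c :=
      hcb (τ.comp (algebraMap F (spN f))) i
    have h2 : ‖τ (mon n t n (a x))‖ ≤ (2 * (B : ℝ)) ^ (∑ j, ((a x j : ℕ))) := by
      rw [mon, map_prod, norm_prod, ← Finset.prod_pow_eq_pow_sum]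
      refine Finset.prod_le_prod (fun _ _ => norm_nonneg _) fun j _ => ?_
      rw [map_pow, norm_pow]
      exact pow_le_pow_left₀ (norm_nonneg _) (htb τ _) _
    exact mul_le_mul h1 h2 (norm_nonneg _) (by linarith)
  have h1 := Pool.Agent.N793.CF.discr_le b hint
  have h2 := Pool.Agent.N793.CF.discr_bound b
    (fun k => c * (2 * (B : ℝ)) ^ (∑ j, ((a k.2 j : ℕ)))) hβ
  have hcardF : Fintype.card (Module.Free.ChooseBasisIndex ℤ (𝓞 F)) = d := by
    rw [hd, Module.finrank_eq_card_basis (integralBasis F)]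
  have hκ : Fintype.card κ ≤ n.factorial := by
    rw [← hcardI]
    exact Fintype.card_le_of_injective a hainj
  have hsum : ∑ x : κ, ∑ j, ((a x j : ℕ)) ≤ S := by
    rw [hS]
    have e1 : ∑ x : κ, ∑ j, ((a x j : ℕ)) = ∑ y ∈ Finset.univ.image a, ∑ j, ((y j : ℕ)) := by
      rw [Finset.sum_image]
      intro x _ y _ h
      exact hainj h
    rw [e1]
    exact Finset.sum_le_sum_of_subset (Finset.subset_univ _)
  have h3 : ∏ k : Module.Free.ChooseBasisIndex ℤ (𝓞 F) × κ, (c * (2 * (B : ℝ)) ^ (∑ j, ((a k.2 j : ℕ)))) ≤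
      (c ^ n.factorial * (2 * (B : ℝ)) ^ S) ^ d := by
    rw [Fintype.prod_prod_type]
    simp only []
    rw [Finset.prod_const, Finset.card_univ, hcardF]
    refine pow_le_pow_left₀ (Finset.prod_nonneg fun _ _ => by positivity) ?_ _
    rw [Finset.prod_mul_distrib, Finset.prod_const, Finset.card_univ, Finset.prod_pow_eq_pow_sum]
    refine mul_le_mul (pow_le_pow_right₀ hc1 hκ) (pow_le_pow_right₀ (by linarith) hsum)
      (by positivity) (by positivity)
  have h4 : ((|NumberField.discr (spN f)| : ℤ) : ℝ) ≤ ((|Algebra.discr ℚ b| : ℚ) : ℝ) := by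
    have h5 : ((|NumberField.discr (spN f)| : ℤ) : ℚ) ≤ |Algebra.discr ℚ b| := by
      rw [Int.cast_abs]; exact h1
    exact_mod_cast (Rat.cast_le (K := ℝ)).2 h5
  refine h4.trans (h2.trans ?_)
  rw [Fintype.card_prod, hcardF]
  have h6 : (Nat.factorial (d * Fintype.card κ) : ℝ) ≤ (Nat.factorial (d * n.factorial) : ℝ) := by
    exact_mod_cast Nat.factorial_le (Nat.mul_le_mul_left d hκ)
  have h7 : (Nat.factorial (d * Fintype.card κ) : ℝ) *
      ∏ k : Module.Free.ChooseBasisIndex ℤ (𝓞 F) × κ, (c * (2 * (B : ℝ)) ^ (∑ j, ((a k.2 j : ℕ)))) ≤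
      (Nat.factorial (d * n.factorial) : ℝ) * (c ^ n.factorial * (2 * (B : ℝ)) ^ S) ^ d :=
    mul_le_mul h6 h3 (Finset.prod_nonneg fun _ _ => by positivity) (by positivity)
  refine (pow_le_pow_left₀ (mul_nonneg (by positivity)
    (Finset.prod_nonneg fun _ _ => by positivity)) h7 2).trans (le_of_eq ?_)
  rw [hK]
  have h8 : d * (n.factorial * (n * (n - 1) / 2)) = S * d * 2 := by rw [← hS2]; ring
  rw [h8, pow_mul (B : ℝ) _ 2, pow_mul (B : ℝ) _ d, mul_pow (2 : ℝ) (B : ℝ) S]
  simp only [mul_pow]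
  ring

end Pool.Agent.U376.RL
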