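import Pool.Agent.U376.RL.Gal1
import Pool.Agent.U376.RL.Gal3
import Pool.Agent.U376.RL.Emb
import Pool.Agent.N783.CF.Final

/-!
# Galois extensions with the symmetric group (helper376)
-/

set_option autoImplicit false
set_option linter.all false

open Polynomial NumberField
open scoped Classical

namespace Pool.Agent.U376.RL

open Pool.Agent.U376.RF
open Pool.Agent.N783.PF
open Pool.Agent.N783.CF (Sym Fields Gd NUnit)
open Pool.Agent.N352.PJ (dd)

variable {F : Type} [Field F] [NumberField F]

instance spl_inst (f : (𝓞 F)[X]) : (fF f).IsSplittingField F (spN f) :=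
  IntermediateField.adjoin_rootSet_isSplittingField (IsAlgClosed.splits _)

theorem nf_spN (f : (𝓞 F)[X]) : NumberField (spN f) := by
  have : FiniteDimensional F (spN f) := IsSplittingField.finiteDimensional (spN f) (fF f)
  exact NumberField.of_module_finite F (spN f)

theorem gal_spN {f : (𝓞 F)[X]} (hi : Irreducible (fF f)) : IsGalois F (spN f) :=
  IsGalois.of_separable_splitting_field (p := fF f) hi.separable

theorem le_spN {g : ℕ} {f : (𝓞 F)[X]} {L : IntermediateField F (AlgebraicClosure F)}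
    [NumberField L] {θ : L} (h : IsGen g f θ) : L ≤ spN f := by
  intro x hx
  obtain ⟨c, hc⟩ := h.gen ⟨x, hx⟩
  have hθ : (θ : AlgebraicClosure F) ∈ spN f := by
    refine IntermediateField.subset_adjoin F _ ?_
    rw [mem_rootSet]
    refine ⟨(h.mon.map (algebraMap (𝓞 F) F)).ne_zero, ?_⟩
    have h1 := congrArg (algebraMap L (AlgebraicClosure F)) h.root
    rw [map_zero, ← aeval_algebraMap_apply] at h1
    exact h1
  have h2 : x = ∑ i : Fin (2 * g + 1), algebraMap F (AlgebraicClosure F) (c i) *
      (θ : AlgebraicClosure F) ^ (i : ℕ) := by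
    have h3 := congrArg (algebraMap L (AlgebraicClosure F)) hc
    rw [map_sum] at h3
    refine h3.trans (Finset.sum_congr rfl fun i _ => ?_)
    rw [map_mul, map_pow]
    rfl
  rw [h2]
  exact sum_mem fun i _ => mul_mem ((spN f).algebraMap_mem _) (pow_mem hθ _)

/-- the group of the splitting field -/
theorem group_spN {g : ℕ} {f : (𝓞 F)[X]} {L : IntermediateField F (AlgebraicClosure F)}
    [NumberField L] {θ : L} (h : IsGen g f θ) (hi : Irreducible (fF f)) (hS : Sym F L) :
    Nonempty ((spN f ≃ₐ[F] spN f) ≃* Equiv.Perm (Fin (2 * g + 1))) := by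
  obtain ⟨P, hP⟩ : ∃ P : F[X], P = fF f := ⟨_, rfl⟩
  haveI : Fact ((P.map (algebraMap F (AlgebraicClosure F))).Splits) := ⟨IsAlgClosed.splits _⟩
  haveI : P.IsSplittingField F (spN f) := by rw [hP]; exact spl_inst f
  have hP0 : P ≠ 0 := by rw [hP]; exact (h.mon.map (algebraMap (𝓞 F) F)).ne_zero
  have hint : IsIntegral F θ := Algebra.IsIntegral.isIntegral θ
  let pb : PowerBasis F L := PowerBasis.ofAdjoinEqTop hint (adj_top h)
  have hpb : pb.gen = θ := PowerBasis.ofAdjoinEqTop_gen hint (adj_top h)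
  have hmp : minpoly F pb.gen = P := by rw [hpb, minpoly_eq h hi, hP]
  obtain ⟨E0, hE0⟩ : ∃ E0 : (L →ₐ[F] AlgebraicClosure F) ≃ P.rootSet (AlgebraicClosure F),
      ∀ φ, ((E0 φ : P.rootSet (AlgebraicClosure F)) : AlgebraicClosure F) = φ θ := by
    refine ⟨(pb.liftEquiv (S' := AlgebraicClosure F)).trans (Equiv.subtypeEquivRight fun y => ?_),
      fun φ => ?_⟩
    · rw [hmp, mem_rootSet]
      exact ⟨fun h => ⟨hP0, h⟩, fun h => h.2⟩
    · show φ pb.gen = φ θ
      rw [hpb]
  have hsurj : Function.Surjective (Gal.galActionHom P (AlgebraicClosure F)) := by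
    intro τ
    obtain ⟨s, hs⟩ := hS ((E0.trans τ).trans E0.symm)
    refine ⟨Gal.restrict P (AlgebraicClosure F) s, ?_⟩
    apply Equiv.ext
    intro x
    apply Subtype.ext
    rw [Gal.galActionHom_restrict]
    obtain ⟨φ, rfl⟩ := E0.surjective x
    have h1 := hs φ
    have h2 : E0 (((E0.trans τ).trans E0.symm) φ) = τ (E0 φ) := by
      show E0 (E0.symm (τ (E0 φ))) = _
      exact E0.apply_symm_apply _
    rw [← h2, h1, hE0, hE0]
    rfl
  have e1 : (spN f ≃ₐ[F] spN f) ≃* P.Gal := AlgEquiv.autCongr (IsSplittingField.algEquiv (spN f) P)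
  have e2 : P.Gal ≃* Equiv.Perm (P.rootSet (AlgebraicClosure F)) :=
    MulEquiv.ofBijective (Gal.galActionHom P (AlgebraicClosure F))
      ⟨Gal.galActionHom_injective P (AlgebraicClosure F), hsurj⟩
  have hcard : Fintype.card (P.rootSet (AlgebraicClosure F)) = 2 * g + 1 := by
    rw [← Fintype.card_congr E0, AlgHom.card, h.rank]
  exact ⟨(e1.trans e2).trans (Equiv.permCongrHom (Fintype.equivFinOfCardEq hcard))⟩

/-- the number of the intermediate fields -/
theorem card_inter {g : ℕ} (N : IntermediateField F (AlgebraicClosure F)) [NumberField N]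
    (hG : IsGalois F N) (e : (N ≃ₐ[F] N) ≃* Equiv.Perm (Fin (2 * g + 1))) :
    Nat.card (IntermediateField F N) ≤ 2 ^ (2 * g + 1).factorial := by
  have : FiniteDimensional F N := Module.Finite.of_restrictScalars_finite ℚ F N
  have h1 : Nat.card (N ≃ₐ[F] N) = (2 * g + 1).factorial := by
    rw [Nat.card_congr e.toEquiv, Nat.card_eq_fintype_card, Fintype.card_perm, Fintype.card_fin]
  have hfin : Finite (N ≃ₐ[F] N) := Finite.of_equiv _ e.symm.toEquiv
  have h2 : Nat.card (IntermediateField F N) ≤ Nat.card (Set (N ≃ₐ[F] N)) := by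
    refine Nat.card_le_card_of_injective (fun E => (E.fixingSubgroup : Set (N ≃ₐ[F] N))) ?_
    intro E E' hE
    have h3 : E.fixingSubgroup = E'.fixingSubgroup := SetLike.coe_injective hE
    exact (IsGalois.intermediateFieldEquivSubgroup (F := F) (E := N)).injective
      (congrArg OrderDual.toDual h3)
  have h4 : Nat.card (Set (N ≃ₐ[F] N)) = 2 ^ Nat.card (N ≃ₐ[F] N) := by
    haveI := Fintype.ofFinite (N ≃ₐ[F] N)
    rw [Nat.card_eq_fintype_card, Fintype.card_set, Nat.card_eq_fintype_card]
  rw [h4, h1] at h2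
  exact h2

end Pool.Agent.U376.RL
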