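import Pool.Agent.U376.RL.FamT
import Pool.Agent.U376.RL.Fin
import Pool.Agent.N783.CF.WRFinal

/-!
# Wreath products with local conditions (helper376)
-/

set_option autoImplicit false
set_option linter.all false

open Polynomial NumberField IsDedekindDomain
open scoped Classical

namespace Pool.Agent.U376.RL

open Pool.Agent.U376.RF
open Pool.Agent.N783.PF
open Pool.Agent.N352.PF (rv)
open Pool.Agent.N783.CF (TwoS Fields WFull FldsS wrOne)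

theorem cntT (F : Type) [Field F] [NumberField F] (g : ℕ) (hg : 1 ≤ g) (W₀ : ℕ) (N : ℕ)
    (hN : 0 < N)
    (f₀ : (𝓞 F)[X]) (hm0 : f₀.Monic) (hd0 : f₀.natDegree = 2 * g + 1) (ht0 : f₀.coeff (2 * g) = 0)
    (hirr0 : ∀ 𝔭 : Ideal (𝓞 F), 𝔭.IsPrime → 𝔭 ≠ ⊥ → (N : 𝓞 F) ∈ 𝔭 → (2 : 𝓞 F) ∈ 𝔭 →
      Irreducible (f₀.map (Ideal.Quotient.mk 𝔭)))
    (hodd0 : ∀ 𝔭 : Ideal (𝓞 F), 𝔭.IsPrime → 𝔭 ≠ ⊥ → (N : 𝓞 F) ∈ 𝔭 → (2 : 𝓞 F) ∉ 𝔭 →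
      f₀.discr ∉ 𝔭 ∨ ((N : 𝓞 F) ∈ 𝔭 ^ 2 ∧ f₀.discr ∉ 𝔭 ^ 2))
    (r : (F →+* ℝ) → ℕ) (hr1 : ∀ σ, Odd (r σ)) (hr2 : ∀ σ, r σ ≤ 2 * g + 1) :
    CntE g (fun f : (𝓞 F)[X] => TwoS g W₀ f ∧ (∀ j, (N : 𝓞 F) ∣ f.coeff j - f₀.coeff j) ∧
      ∀ σ : F →+* ℝ, nR f σ = r σ) := by
  have hfam := famTR Pool.Agent.N783.CF.spl W₀ Pool.Agent.N490.PF.pts Pool.Agent.N75.PF.cu
    Pool.Agent.N364.PF.cl Pool.Agent.N189.PF.ld Pool.Agent.N195.PF.pr Pool.Agent.N352.PF.bxT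
    Pool.Agent.N935.PF.WK.wk
    (Pool.Agent.N352.PF.STR331.str Pool.Agent.N75.PF.cu Pool.Agent.N364.PF.cl Pool.Agent.N195.PF.pf)
    Pool.Agent.N195.PF.dscp Pool.Agent.N823.PF.gf Pool.Agent.N195.PF.pf
    Pool.Agent.N783.PF.bad Pool.Agent.N783.PF.sqf Pool.Agent.N667.PF.irr g hg N hN f₀ hm0 hd0 ht0
    (fun v hv h2v => hirr0 v.asIdeal v.isPrime v.ne_bot hv h2v)
    (fun v hv h2v => by
      rw [dsc_discr hg hm0 hd0, dsc_discr hg hm0 hd0]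
      exact hodd0 v.asIdeal v.isPrime v.ne_bot hv h2v) r hr1 hr2
  exact cntE hg (cn1E hg (manyE hg Pool.Agent.N783.CF.few hfam)
    (Pool.Agent.N914.CF.t_FIB Pool.Agent.N490.PF.pts Pool.Agent.N783.PF.int)
    Pool.Agent.N602.CF.t_UNI Pool.Agent.N793.CF.t_DB Pool.Agent.N526.CF.t_ADJ
    Pool.Agent.N692.CF.t_NUN Pool.Agent.N783.CF.finf Pool.Agent.N490.PF.pts)
    Pool.Agent.N783.CF.finf

/-- Transport of a generator. -/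
theorem isGen_map {F L L' : Type} [Field F] [NumberField F] [Field L] [NumberField L] [Field L']
    [NumberField L'] [Algebra F L] [Algebra F L'] {g : ℕ} {f : (𝓞 F)[X]} {θ : L}
    (h : IsGen g f θ) (ψ : L ≃ₐ[F] L') : IsGen g f (ψ θ) := by
  refine ⟨h.mon, h.deg, ?_, ?_, ?_⟩
  · have e1 := aeval_algHom_apply (ψ : L →ₐ[F] L') θ (fF f)
    have e2 : ((ψ : L →ₐ[F] L') : L → L') θ = ψ θ := rfl
    rw [e2] at e1
    rw [e1, h.root, map_zero]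
  · rw [← h.rank]
    exact ψ.toLinearEquiv.finrank_eq.symm
  · intro x
    obtain ⟨c, hc⟩ := h.gen (ψ.symm x)
    refine ⟨c, ?_⟩
    have e1 : x = ψ (ψ.symm x) := (ψ.apply_symm_apply x).symm
    rw [e1, hc, map_sum]
    refine Finset.sum_congr rfl fun i _ => ?_
    rw [map_mul, map_pow, ψ.commutes]

/-- The properties of the fields which are counted. -/
def LocE {F : Type} [Field F] [NumberField F] {Ω : Type} [Field Ω] [Algebra F Ω] (N : ℕ)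
    (p : (𝓞 F)[X]) (r : (F →+* ℝ) → ℕ) (L : IntermediateField F Ω) : Prop :=
  (∀ σ : F →+* ℝ, Nat.card {φ : L →+* ℝ // φ.comp (algebraMap F L) = σ} = r σ) ∧
    ∃ t : 𝓞 L, Algebra.adjoin (𝓞 F) {t} = ⊤ ∧
      (∀ j, (N : 𝓞 F) ∣ (minpoly (𝓞 F) t).coeff j - p.coeff j) ∧
      ∀ 𝔭 : Ideal (𝓞 F), 𝔭.IsPrime → 𝔭 ≠ ⊥ → (minpoly (𝓞 F) t).discr ∉ 𝔭 ^ 2

theorem locE_of {F : Type} [Field F] [NumberField F] {Ω : Type} [Field Ω] [Algebra F Ω] {g N : ℕ}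
    (hg : 1 ≤ g) {p : (𝓞 F)[X]} {r : (F →+* ℝ) → ℕ} (L : IntermediateField F Ω) [NumberField L]
    {f : (𝓞 F)[X]} {θ : L} (hG : IsGen g f θ) (hi : Irreducible (fF f)) (hs : SqF g f)
    (hcg : ∀ j, (N : 𝓞 F) ∣ f.coeff j - p.coeff j) (hre : ∀ σ : F →+* ℝ, nR f σ = r σ) :
    LocE N p r L := by
  obtain ⟨t, htt⟩ : ∃ t : 𝓞 L, algebraMap (𝓞 L) L t = θ :=
    ⟨⟨θ, Pool.Agent.N783.CF.isIntegral_gen hG⟩, rfl⟩
  refine ⟨fun σ => (card_emb hG hi σ).trans (hre σ), t, adj_int hG hs t htt, ?_, ?_⟩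
  · rw [minpoly_int hG hi t htt]
    exact hcg
  · intro 𝔭 h1 h2
    rw [minpoly_int hG hi t htt, ← dsc_discr hg hG.mon hG.deg]
    exact hs 𝔭 h1 h2

/-- Many fields over `M` with local conditions whose Galois group over `K` is the full wreath
product. -/
theorem wreathLocal (g : ℕ) (K : Type) [Field K] [NumberField K]
    (M : IntermediateField K (AlgebraicClosure K)) [NumberField M] (hg : 1 ≤ g) (N : ℕ)
    (hN : 0 < N)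
    (p : (𝓞 M)[X]) (hm0 : p.Monic) (hd0 : p.natDegree = 2 * g + 1) (ht0 : p.coeff (2 * g) = 0)
    (hirr0 : ∀ 𝔭 : Ideal (𝓞 M), 𝔭.IsPrime → 𝔭 ≠ ⊥ → (N : 𝓞 M) ∈ 𝔭 → (2 : 𝓞 M) ∈ 𝔭 →
      Irreducible (p.map (Ideal.Quotient.mk 𝔭)))
    (hodd0 : ∀ 𝔭 : Ideal (𝓞 M), 𝔭.IsPrime → 𝔭 ≠ ⊥ → (N : 𝓞 M) ∈ 𝔭 → (2 : 𝓞 M) ∉ 𝔭 →
      p.discr ∉ 𝔭 ∨ ((N : 𝓞 M) ∈ 𝔭 ^ 2 ∧ p.discr ∉ 𝔭 ^ 2))
    (r : (M →+* ℝ) → ℕ) (hr1 : ∀ σ, Odd (r σ)) (hr2 : ∀ σ, r σ ≤ 2 * g + 1) :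
    ∃ c : ℝ, 0 < c ∧ ∃ X₀ : ℝ, ∀ X : ℝ, X₀ ≤ X →
      (Fields K (Module.finrank K M * (2 * g + 1)) X).Finite ∧
      ∃ T : Set (IntermediateField M (AlgebraicClosure K)),
        (∀ L ∈ T, L.restrictScalars K ∈ Fields K (Module.finrank K M * (2 * g + 1)) X ∧
          WFull M (L.restrictScalars K) ∧ LocE N p r L) ∧
        c * X ^ ((1 : ℝ) / 2 + 1 / ((2 * g + 1 : ℕ) : ℝ)) ≤ (T.ncard : ℝ) := by
  have : Algebra.IsAlgebraic M (AlgebraicClosure K) := Algebra.IsAlgebraic.tower_top (K := K) M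
  have : IsAlgClosure M (AlgebraicClosure K) := ⟨inferInstance, inferInstance⟩
  obtain ⟨e⟩ : Nonempty (AlgebraicClosure M ≃ₐ[M] AlgebraicClosure K) :=
    ⟨IsAlgClosure.equiv M (AlgebraicClosure M) (AlgebraicClosure K)⟩
  have hinj : Function.Injective (fun L : IntermediateField M (AlgebraicClosure M) =>
      L.map e.toAlgHom) := fun L L' h => IntermediateField.map_injective _ h
  obtain ⟨W₀, hW⟩ := wrOne Pool.Agent.N783.CF.frb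
    (Pool.Agent.N58.WR.t_WW Pool.Agent.N928.WR.t_GRP) Pool.Agent.N914.WR.t_WF
    Pool.Agent.N574.WR.t_AA g K M hg e
  obtain ⟨c, hc, X₀, h⟩ := cntT M g hg W₀ N hN p hm0 hd0 ht0 hirr0 hodd0 r hr1 hr2
  have hpos : 0 < Module.finrank K M := Module.finrank_pos
  refine ⟨c, hc, max X₀ 1, fun X hX => ?_⟩
  have hX1 : 1 ≤ X := (le_max_right _ _).trans hX
  obtain ⟨hfin, hle⟩ := h X ((le_max_left _ _).trans hX)
  refine ⟨Pool.Agent.N783.CF.finf K _ X (by nlinarith) hX1,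
    (fun L : IntermediateField M (AlgebraicClosure M) => L.map e.toAlgHom) ''
      FldsE g (fun f : (𝓞 M)[X] => TwoS g W₀ f ∧ (∀ j, (N : 𝓞 M) ∣ f.coeff j - p.coeff j) ∧
        ∀ σ : M →+* ℝ, nR f σ = r σ) X, ?_, ?_⟩
  · rintro _ ⟨L, hL, rfl⟩
    obtain ⟨hLF, hNL, f, θ, hG, hi, hs, ht, hu, hts, hcg, hre⟩ := hL
    obtain ⟨h1, h2⟩ := hW X L ⟨hLF, hNL, f, θ, hG, hi, hs, ht, hu, hts⟩
    refine ⟨h1, h2, ?_⟩
    let ψ : L ≃ₐ[M] (L.map e.toAlgHom) := IntermediateField.intermediateFieldMap e L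
    have hN' : NumberField (L.map e.toAlgHom) := NumberField.of_ringEquiv L _ ψ.toRingEquiv
    exact locE_of hg (L.map e.toAlgHom) (isGen_map hG ψ) hi hs hcg hre
  · rw [Set.ncard_image_of_injective _ hinj]
    exact hle

end Pool.Agent.U376.RL
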