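import Pool.Agent.U376.RL.Gal4
import Pool.Agent.U376.RL.Wr

/-!
# Counting Galois extensions with the symmetric group (helper376)
-/

set_option autoImplicit false
set_option linter.all false

open Polynomial NumberField
open scoped Classical

namespace Pool.Agent.U376.RL

open Pool.Agent.U376.RF
open Pool.Agent.N783.PF
open Pool.Agent.N783.CF (Sym Fields Gd NUnit)
open Pool.Agent.N352.PJ (dd)

variable {F : Type} [Field F] [NumberField F]

/-- the Galois extensions which are counted -/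
def GalE (g : ℕ) (E : (𝓞 F)[X] → Prop) (X : ℝ) : Set (IntermediateField F (AlgebraicClosure F)) :=
  {N | IsGalois F N ∧ Nonempty ((N ≃ₐ[F] N) ≃* Equiv.Perm (Fin (2 * g + 1))) ∧
    (∃ h : NumberField N, ((|@NumberField.discr N _ h| : ℤ) : ℝ) ≤ X) ∧
    ∃ L : IntermediateField F (AlgebraicClosure F), L ≤ N ∧
      ∃ (_ : NumberField L) (f : (𝓞 F)[X]) (θ : L),
      IsGen g f θ ∧ Irreducible (fF f) ∧ SqF g f ∧ Sym F L ∧ E f}

theorem fin_inter (N : IntermediateField F (AlgebraicClosure F)) [NumberField N]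
    (hG : IsGalois F N) : Finite (IntermediateField F N) := by
  have : FiniteDimensional F N := Module.Finite.of_restrictScalars_finite ℚ F N
  have hfin : Finite (N ≃ₐ[F] N) := inferInstance
  refine Finite.of_injective (fun E => (E.fixingSubgroup : Set (N ≃ₐ[F] N))) ?_
  intro E E' hE
  have h3 : E.fixingSubgroup = E'.fixingSubgroup := SetLike.coe_injective hE
  exact (IsGalois.intermediateFieldEquivSubgroup (F := F) (E := N)).injective
    (congrArg OrderDual.toDual h3)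

theorem fibre {g : ℕ} (N : IntermediateField F (AlgebraicClosure F)) [NumberField N]
    (hG : IsGalois F N) (e : (N ≃ₐ[F] N) ≃* Equiv.Perm (Fin (2 * g + 1)))
    (S : Finset (IntermediateField F (AlgebraicClosure F))) (hS : ∀ L ∈ S, L ≤ N) :
    S.card ≤ 2 ^ (2 * g + 1).factorial := by
  have := fin_inter N hG
  refine le_trans ?_ (card_inter N hG e)
  rw [← Fintype.card_coe, ← Nat.card_eq_fintype_card]
  refine Nat.card_le_card_of_injective
    (fun L : S => IntermediateField.restrict (hS L.1 L.2)) ?_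
  intro L L' hLL
  apply Subtype.ext
  have h1 := IntermediateField.lift_restrict (hS L.1 L.2)
  have h2 := IntermediateField.lift_restrict (hS L'.1 L'.2)
  have hLL : IntermediateField.restrict (hS L.1 L.2) = IntermediateField.restrict (hS L'.1 L'.2) := hLL
  rw [← h1, ← h2, hLL]

theorem finrank_gal {g : ℕ} (N : IntermediateField F (AlgebraicClosure F)) [NumberField N]
    (hG : IsGalois F N) (e : (N ≃ₐ[F] N) ≃* Equiv.Perm (Fin (2 * g + 1))) :
    Module.finrank F N = (2 * g + 1).factorial := by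
  have : FiniteDimensional F N := Module.Finite.of_restrictScalars_finite ℚ F N
  rw [← IsGalois.card_aut_eq_finrank, Nat.card_congr e.toEquiv, Nat.card_eq_fintype_card,
    Fintype.card_perm, Fintype.card_fin]

theorem galE_fin {g : ℕ} (hg : 1 ≤ g) (E : (𝓞 F)[X] → Prop) (X : ℝ) : (GalE g E X).Finite := by
  have h2 : 2 ≤ (2 * g + 1).factorial := by
    calc 2 ≤ 2 * g + 1 := by omega
      _ ≤ (2 * g + 1).factorial := Nat.self_le_factorial _
  refine (Pool.Agent.N783.CF.finf F (2 * g + 1).factorial (max X 1) h2 (le_max_right _ _)).subset ?_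
  rintro N ⟨hG, ⟨e⟩, ⟨hN, hd⟩, -⟩
  exact ⟨finrank_gal N hG e, hN, hd.trans (le_max_left _ _)⟩

theorem galCount {g : ℕ} (hg : 1 ≤ g) {E : (𝓞 F)[X] → Prop} (h : FamE g E) :
    ∃ c : ℝ, 0 < c ∧ ∃ X₀ : ℝ, ∀ X : ℝ, X₀ ≤ X →
      c * X ^ ((1 + 2 / ((2 * g + 1 : ℕ) : ℝ)) / ((2 * g + 1).factorial : ℝ)) ≤
        ((GalE g E X).ncard : ℝ) := by
  obtain ⟨δ, hδ, c, hc, B₀, hB⟩ := cn1B hg (manyE hg Pool.Agent.N783.CF.few h)
    (Pool.Agent.N914.CF.t_FIB Pool.Agent.N490.PF.pts Pool.Agent.N783.PF.int)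
    Pool.Agent.N602.CF.t_UNI Pool.Agent.N793.CF.t_DB Pool.Agent.N526.CF.t_ADJ
    Pool.Agent.N692.CF.t_NUN Pool.Agent.N783.CF.finf Pool.Agent.N490.PF.pts
  obtain ⟨n, hn⟩ : ∃ n : ℕ, n = 2 * g + 1 := ⟨_, rfl⟩
  obtain ⟨C, hC, hdisc⟩ := disc_spN (F := F) (2 * g + 1) (by omega)
  obtain ⟨d, hd⟩ : ∃ d : ℕ, d = Module.finrank ℚ F := ⟨_, rfl⟩
  have hd1 : 1 ≤ d := by rw [hd]; exact Module.finrank_pos
  obtain ⟨M, hM⟩ : ∃ M : ℕ, M = 2 ^ (2 * g + 1).factorial := ⟨_, rfl⟩
  have hM0 : 0 < M := by rw [hM]; positivity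
  have hMr : (0 : ℝ) < M := by exact_mod_cast hM0
  have hfac : 0 < (2 * g + 1).factorial := Nat.factorial_pos _
  have hg2 : (2 * g + 1) * (2 * g + 1 - 1) / 2 = g * (2 * g + 1) := by
    have : (2 * g + 1) * (2 * g + 1 - 1) = g * (2 * g + 1) * 2 := by
      rw [Nat.add_sub_cancel]; ring
    rw [this, Nat.mul_div_cancel _ (by norm_num)]
  rw [hg2] at hdisc
  have he : 1 ≤ d * ((2 * g + 1).factorial * (g * (2 * g + 1))) :=
    Nat.mul_pos hd1 (Nat.mul_pos hfac (Nat.mul_pos hg (by omega)))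
  have hmono : ∀ X Y : ℝ, 1 ≤ Y → X ≤ Y →
      ((GalE (F := F) g E X).ncard : ℝ) ≤ ((GalE (F := F) g E Y).ncard : ℝ) := by
    intro X Y _ hXY
    have : (GalE (F := F) g E X).ncard ≤ (GalE (F := F) g E Y).ncard := by
      refine Set.ncard_le_ncard ?_ (galE_fin hg E Y)
      rintro N ⟨h1, h2, ⟨h3, h4⟩, h5⟩
      exact ⟨h1, h2, ⟨h3, h4.trans hXY⟩, h5⟩
    exact_mod_cast this
  obtain ⟨c', hc', X₀, -, hX⟩ := Pool.Agent.N654.CF.real_part (d * dd g)
    (d * ((2 * g + 1).factorial * (g * (2 * g + 1)))) he (c / M) C (by positivity) hC B₀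
    (fun X => ((GalE (F := F) g E X).ncard : ℝ)) hmono (by
      intro B hBB
      obtain ⟨hB1, hfin, hcard⟩ := hB B hBB
      rw [← hd] at hcard
      have hch : ∀ L ∈ FldsB g E δ B, ∃ f : (𝓞 F)[X], ∃ (_ : NumberField L) (θ : L),
          IsGen g f θ ∧ Gd g B δ f ∧ NUnit g f ∧ E f := by
        rintro L ⟨h1, f, θ, h2⟩
        exact ⟨f, h1, θ, h2⟩
      choose! fL hfL using hch
      have hmem : ∀ L ∈ hfin.toFinset, spN (fL L) ∈ (galE_fin hg E
          (C * (B : ℝ) ^ (d * ((2 * g + 1).factorial * (g * (2 * g + 1)))))).toFinset := by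
        intro L hL
        obtain ⟨hN, θ, hG, hgd, hu, hE⟩ := hfL L (hfin.mem_toFinset.1 hL)
        have hsym : Sym F L := Pool.Agent.N783.CF.full g F L (fL L) θ hg hG hgd.irr hgd.sqf hgd.two hu
        haveI := nf_spN (fL L)
        rw [Set.Finite.mem_toFinset]
        refine ⟨gal_spN hgd.irr, group_spN hG hgd.irr hsym, ⟨nf_spN (fL L), ?_⟩, L, le_spN hG, hN,
          fL L, θ, hG, hgd.irr, hgd.sqf, hsym, hE⟩
        have h1 := hdisc B (fL L) hB1 hgd.ht.mon hgd.ht.deg (fun σ z hz =>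
          Pool.Agent.N707.PF.MAJ.root_bd hgd.ht σ hz)
        rw [← hd] at h1
        exact h1
      have hfib : ∀ N ∈ hfin.toFinset.image (fun L => spN (fL L)),
          (hfin.toFinset.filter fun L => spN (fL L) = N).card ≤ M := by
        intro N hN
        obtain ⟨L0, hL0, hLN⟩ := Finset.mem_image.1 hN
        obtain ⟨hN0, θ, hG, hgd, hu, hE⟩ := hfL L0 (hfin.mem_toFinset.1 hL0)
        have hsym : Sym F L0 := Pool.Agent.N783.CF.full g F L0 (fL L0) θ hg hG hgd.irr hgd.sqf hgd.two hu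
        obtain ⟨e⟩ := group_spN hG hgd.irr hsym
        haveI := nf_spN (fL L0)
        rw [hM, ← hLN]
        refine fibre (spN (fL L0)) (gal_spN hgd.irr) e _ ?_
        intro L hL
        obtain ⟨h1, h2⟩ := Finset.mem_filter.1 hL
        obtain ⟨hN1, θ1, hG1, -⟩ := hfL L (hfin.mem_toFinset.1 h1)
        have h3 := le_spN hG1
        rw [h2] at h3
        exact h3
      have hcount := Finset.card_le_mul_card_image hfin.toFinset M hfib
      have hsub : (hfin.toFinset.image (fun L => spN (fL L))).card ≤ (galE_fin hg E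
          (C * (B : ℝ) ^ (d * ((2 * g + 1).factorial * (g * (2 * g + 1)))))).toFinset.card := by
        refine Finset.card_le_card ?_
        intro N hN
        obtain ⟨L, hL, rfl⟩ := Finset.mem_image.1 hN
        exact hmem L hL
      have h5 : hfin.toFinset.card ≤ M * (galE_fin hg E
          (C * (B : ℝ) ^ (d * ((2 * g + 1).factorial * (g * (2 * g + 1)))))).toFinset.card :=
        hcount.trans (Nat.mul_le_mul_left _ hsub)
      rw [Set.ncard_eq_toFinset_card _ hfin] at hcard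
      show c / M * (B : ℝ) ^ (d * dd g) ≤ ((GalE (F := F) g E
        (C * (B : ℝ) ^ (d * ((2 * g + 1).factorial * (g * (2 * g + 1)))))).ncard : ℝ)
      rw [Set.ncard_eq_toFinset_card _ (galE_fin hg E _), div_mul_eq_mul_div, div_le_iff₀ hMr]
      have h6 : (hfin.toFinset.card : ℝ) ≤ M * ((galE_fin hg E
          (C * (B : ℝ) ^ (d * ((2 * g + 1).factorial * (g * (2 * g + 1)))))).toFinset.card : ℝ) := by
        exact_mod_cast h5
      linarith)
  refine ⟨c', hc', X₀, fun X hXX => ?_⟩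
  have h7 := hX X hXX
  have hexp : ((d * dd g : ℕ) : ℝ) / ((d * ((2 * g + 1).factorial * (g * (2 * g + 1))) : ℕ) : ℝ) =
      (1 + 2 / ((2 * g + 1 : ℕ) : ℝ)) / ((2 * g + 1).factorial : ℝ) := by
    have hd0 : (0 : ℝ) < d := by exact_mod_cast hd1
    have hg0 : (0 : ℝ) < g := by exact_mod_cast hg
    have hf0 : (0 : ℝ) < ((2 * g + 1).factorial : ℝ) := by exact_mod_cast hfac
    obtain ⟨φ, hφ⟩ : ∃ φ : ℝ, φ = ((2 * g + 1).factorial : ℝ) := ⟨_, rfl⟩
    unfold Pool.Agent.N352.PJ.dd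
    push_cast
    rw [← hφ] at hf0 ⊢
    field_simp
    ring
  rw [hexp] at h7
  exact h7

end Pool.Agent.U376.RL
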