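import Pool.Agent.U376.RL.Gal5
import Pool.Agent.U376.RL.Fin

/-!
# Galois extensions with the symmetric group and local conditions (helper376)
-/

set_option autoImplicit false
set_option linter.all false

open Polynomial NumberField IsDedekindDomain
open scoped Classical

namespace Pool.Agent.U376.RL

open Pool.Agent.U376.RF
open Pool.Agent.N783.PF
open Pool.Agent.N352.PF (rv)

theorem galR (F : Type) [Field F] [NumberField F] (g : ℕ) (hg : 1 ≤ g) (N : ℕ) (hN : 0 < N)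
    (f₀ : (𝓞 F)[X]) (hm0 : f₀.Monic) (hd0 : f₀.natDegree = 2 * g + 1) (ht0 : f₀.coeff (2 * g) = 0)
    (hirr0 : ∀ 𝔭 : Ideal (𝓞 F), 𝔭.IsPrime → 𝔭 ≠ ⊥ → (N : 𝓞 F) ∈ 𝔭 → (2 : 𝓞 F) ∈ 𝔭 →
      Irreducible (f₀.map (Ideal.Quotient.mk 𝔭)))
    (hodd0 : ∀ 𝔭 : Ideal (𝓞 F), 𝔭.IsPrime → 𝔭 ≠ ⊥ → (N : 𝓞 F) ∈ 𝔭 → (2 : 𝓞 F) ∉ 𝔭 →
      f₀.discr ∉ 𝔭 ∨ ((N : 𝓞 F) ∈ 𝔭 ^ 2 ∧ f₀.discr ∉ 𝔭 ^ 2))
    (r : (F →+* ℝ) → ℕ) (hr1 : ∀ σ, Odd (r σ)) (hr2 : ∀ σ, r σ ≤ 2 * g + 1) :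
    ∃ c : ℝ, 0 < c ∧ ∃ X₀ : ℝ, ∀ X : ℝ, X₀ ≤ X →
      c * X ^ ((1 + 2 / ((2 * g + 1 : ℕ) : ℝ)) / ((2 * g + 1).factorial : ℝ)) ≤
        ((GalE g (fun f : (𝓞 F)[X] => (∀ j, (N : 𝓞 F) ∣ f.coeff j - f₀.coeff j) ∧
          ∀ σ : F →+* ℝ, nR f σ = r σ) X).ncard : ℝ) := by
  have hfam := famR Pool.Agent.N490.PF.pts Pool.Agent.N75.PF.cu
    Pool.Agent.N364.PF.cl Pool.Agent.N189.PF.ld Pool.Agent.N195.PF.pr Pool.Agent.N352.PF.bxT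
    Pool.Agent.N935.PF.WK.wk
    (Pool.Agent.N352.PF.STR331.str Pool.Agent.N75.PF.cu Pool.Agent.N364.PF.cl Pool.Agent.N195.PF.pf)
    Pool.Agent.N195.PF.dscp Pool.Agent.N823.PF.gf Pool.Agent.N195.PF.pf
    Pool.Agent.N783.PF.bad Pool.Agent.N783.PF.sqf Pool.Agent.N667.PF.irr g hg N hN f₀ hm0 hd0 ht0
    (fun v hv h2v => hirr0 v.asIdeal v.isPrime v.ne_bot hv h2v)
    (fun v hv h2v => by
      rw [dsc_discr hg hm0 hd0, dsc_discr hg hm0 hd0]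
      exact hodd0 v.asIdeal v.isPrime v.ne_bot hv h2v) r hr1 hr2
  exact galCount hg hfam

end Pool.Agent.U376.RL
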