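import Mathlib

/-!
# The number of real zeros of a real polynomial near a given one (helper376)
-/

set_option autoImplicit false
set_option linter.all false

open Polynomial
open scoped Classical

namespace Pool.Agent.U376.RL

/-- The monic polynomial with the simple zeros `Z`. -/
noncomputable def pz (Z : Finset ℂ) : ℂ[X] := ∏ ρ ∈ Z, (X - C ρ)

theorem pz_monic (Z : Finset ℂ) : (pz Z).Monic := monic_prod_of_monic _ _ fun ρ _ => monic_X_sub_C ρ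

theorem pz_natDegree (Z : Finset ℂ) : (pz Z).natDegree = Z.card :=
  natDegree_finsetProd_X_sub_C_eq_card Z (fun ρ => ρ)

theorem pz_eval (Z : Finset ℂ) {ρ : ℂ} (h : ρ ∈ Z) : (pz Z).eval ρ = 0 := by
  rw [pz, eval_prod]
  exact Finset.prod_eq_zero h (by simp)

theorem prod_ge {η : ℝ} (hη : 0 ≤ η) (ρ : ℂ) (s : Multiset ℂ) (h : ∀ ξ ∈ s, η ≤ ‖ρ - ξ‖) :
    η ^ (Multiset.card s) ≤ ‖(s.map (ρ - ·)).prod‖ := by
  induction s using Multiset.induction_on with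
  | empty => simp
  | cons a s ih =>
    rw [Multiset.map_cons, Multiset.prod_cons, norm_mul, Multiset.card_cons, pow_succ, mul_comm]
    exact mul_le_mul (h a (Multiset.mem_cons_self a s))
      (ih fun ξ hξ => h ξ (Multiset.mem_cons_of_mem hξ)) (by positivity) (norm_nonneg _)

theorem real_roots {n : ℕ} (Z : Finset ℂ) (hZ : Z.card = n)
    (hc : ∀ ρ ∈ Z, (starRingEnd ℂ) ρ ∈ Z) :
    ∃ ε : ℝ, 0 < ε ∧ ∀ Q : ℝ[X], Q.Monic → Q.natDegree = n →
      (∀ j < n, ‖((Q.coeff j : ℝ) : ℂ) - (pz Z).coeff j‖ ≤ ε) →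
      {x : ℝ | Q.eval x = 0}.ncard = (Z.filter fun ρ => (starRingEnd ℂ) ρ = ρ).card := by
  -- the zeros have a distance
  obtain ⟨η, hη, hdist⟩ : ∃ η : ℝ, 0 < η ∧ ∀ ρ ∈ Z, ∀ ρ' ∈ Z, ρ ≠ ρ' → 2 * η ≤ ‖ρ - ρ'‖ := by
    by_cases hne : Z.offDiag.Nonempty
    · obtain ⟨p, hp, hmin⟩ := Finset.exists_min_image Z.offDiag (fun p => ‖p.1 - p.2‖) hne
      have hp' := Finset.mem_offDiag.1 hp
      have h0 : 0 < ‖p.1 - p.2‖ := norm_pos_iff.2 (sub_ne_zero.2 hp'.2.2)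
      refine ⟨‖p.1 - p.2‖ / 2, by positivity, fun ρ hρ ρ' hρ' hn => ?_⟩
      have := hmin (ρ, ρ') (Finset.mem_offDiag.2 ⟨hρ, hρ', hn⟩)
      simpa [mul_div_cancel₀] using this
    · refine ⟨1, one_pos, fun ρ hρ ρ' hρ' hn => ?_⟩
      exact absurd ⟨(ρ, ρ'), Finset.mem_offDiag.2 ⟨hρ, hρ', hn⟩⟩ hne
  obtain ⟨M, hM1, hM⟩ : ∃ M : ℝ, 1 ≤ M ∧ ∀ ρ ∈ Z, ‖ρ‖ ≤ M := by
    refine ⟨1 + ∑ ρ ∈ Z, ‖ρ‖, ?_, fun ρ hρ => ?_⟩
    · have : 0 ≤ ∑ ρ ∈ Z, ‖ρ‖ := Finset.sum_nonneg fun _ _ => norm_nonneg _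
      linarith
    · have := Finset.single_le_sum (f := fun ρ : ℂ => ‖ρ‖) (fun _ _ => norm_nonneg _) hρ
      have h2 : ‖ρ‖ ≤ ∑ ρ ∈ Z, ‖ρ‖ := this
      linarith
  refine ⟨η ^ n / (2 * ((n + 1 : ℕ) : ℝ) * M ^ n), by positivity, fun Q hQ hdeg hnear => ?_⟩
  obtain ⟨ε, hε⟩ : ∃ ε : ℝ, ε = η ^ n / (2 * ((n + 1 : ℕ) : ℝ) * M ^ n) := ⟨_, rfl⟩
  rw [← hε] at hnear
  have hε0 : 0 < ε := by rw [hε]; positivity
  obtain ⟨R, hR⟩ : ∃ R : ℂ[X], R = Q.map Complex.ofRealHom := ⟨_, rfl⟩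
  have hRm : R.Monic := by rw [hR]; exact hQ.map _
  have hRd : R.natDegree = n := by rw [hR, hQ.natDegree_map, hdeg]
  have hRc : ∀ j, R.coeff j = ((Q.coeff j : ℝ) : ℂ) := fun j => by rw [hR, coeff_map]; rfl
  have hPd : (pz Z).natDegree = n := by rw [pz_natDegree, hZ]
  have hRe : ∀ x : ℝ, R.eval (x : ℂ) = ((Q.eval x : ℝ) : ℂ) := by
    intro x
    rw [hR, eval_map]
    exact eval₂_at_apply Complex.ofRealHom x
  have hRconj : ∀ x : ℂ, R.eval ((starRingEnd ℂ) x) = (starRingEnd ℂ) (R.eval x) := by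
    intro x
    rw [eval_eq_sum_range, eval_eq_sum_range, map_sum]
    refine Finset.sum_congr rfl fun i _ => ?_
    rw [map_mul, map_pow, hRc, Complex.conj_ofReal]
  -- the value at the zeros
  have hval : ∀ ρ ∈ Z, ‖R.eval ρ‖ < η ^ n := by
    intro ρ hρ
    have h1 : R.eval ρ = (R - pz Z).eval ρ := by rw [eval_sub, pz_eval Z hρ, sub_zero]
    have h2 : (R - pz Z).natDegree < n + 1 := by
      have := natDegree_sub_le R (pz Z)
      rw [hRd, hPd, max_self] at this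
      omega
    rw [h1, eval_eq_sum_range' h2]
    have h3 : ∀ i ∈ Finset.range (n + 1), ‖(R - pz Z).coeff i * ρ ^ i‖ ≤ ε * M ^ n := by
      intro i hi
      rw [Finset.mem_range] at hi
      rw [norm_mul, norm_pow]
      have h4 : ‖(R - pz Z).coeff i‖ ≤ ε := by
        rw [coeff_sub]
        by_cases hin : i = n
        · subst hin
          have e1 := hRm.coeff_natDegree
          have e2 := (pz_monic Z).coeff_natDegree
          rw [hRd] at e1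
          rw [hPd] at e2
          rw [e1, e2, sub_self, norm_zero]
          exact hε0.le
        · rw [hRc]
          exact hnear i (by omega)
      have h5 : ‖ρ‖ ^ i ≤ M ^ n := by
        calc ‖ρ‖ ^ i ≤ M ^ i := pow_le_pow_left₀ (norm_nonneg _) (hM ρ hρ) _
          _ ≤ M ^ n := pow_le_pow_right₀ hM1 (by omega)
      exact mul_le_mul h4 h5 (by positivity) hε0.le
    calc ‖∑ i ∈ Finset.range (n + 1), (R - pz Z).coeff i * ρ ^ i‖
        ≤ ∑ i ∈ Finset.range (n + 1), ‖(R - pz Z).coeff i * ρ ^ i‖ := norm_sum_le _ _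
      _ ≤ ∑ i ∈ Finset.range (n + 1), ε * M ^ n := Finset.sum_le_sum h3
      _ = ((n + 1 : ℕ) : ℝ) * (ε * M ^ n) := by rw [Finset.sum_const, Finset.card_range, nsmul_eq_mul]
      _ = η ^ n / 2 := by rw [hε]; field_simp
      _ < η ^ n := by have := pow_pos hη n; linarith
  -- zeros near the zeros
  have hsplit := (IsAlgClosed.splits R)
  have hex : ∀ ρ : ℂ, ∃ ξ : ℂ, ρ ∈ Z → ξ ∈ R.roots.toFinset ∧ ‖ρ - ξ‖ < η := by
    intro ρ
    by_cases hρ : ρ ∈ Z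
    · by_contra hno
      push Not at hno
      have h1 : ∀ ξ ∈ R.roots, η ≤ ‖ρ - ξ‖ := fun ξ hξ =>
        (hno ξ).2 (Multiset.mem_toFinset.2 hξ)
      have h2 := prod_ge hη.le ρ R.roots h1
      rw [← hsplit.eval_eq_prod_roots_of_monic hRm] at h2
      have h3 : Multiset.card R.roots = n := by
        rw [← hsplit.natDegree_eq_card_roots, hRd]
      rw [h3] at h2
      exact absurd (hval ρ hρ) (not_lt.2 h2)
    · exact ⟨0, fun h => absurd h hρ⟩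
  choose ξ hξ using hex
  have hinj : ∀ ρ ∈ Z, ∀ ρ' ∈ Z, ∀ x : ℂ, ‖ρ - x‖ < η → ‖ρ' - x‖ < η → ρ = ρ' := by
    intro ρ hρ ρ' hρ' x h1 h2
    by_contra hne
    have h3 := hdist ρ hρ ρ' hρ' hne
    have h4 : ‖ρ - ρ'‖ ≤ ‖ρ - x‖ + ‖ρ' - x‖ := by
      have : ρ - ρ' = (ρ - x) - (ρ' - x) := by ring
      rw [this]
      exact norm_sub_le _ _
    linarith
  have himg : Z.image ξ = R.roots.toFinset := by
    apply Finset.eq_of_subset_of_card_le
    · intro x hx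
      obtain ⟨ρ, hρ, rfl⟩ := Finset.mem_image.1 hx
      exact (hξ ρ hρ).1
    · rw [Finset.card_image_of_injOn, hZ]
      · calc R.roots.toFinset.card ≤ Multiset.card R.roots := Multiset.toFinset_card_le _
          _ = n := by rw [← hsplit.natDegree_eq_card_roots, hRd]
      · intro ρ hρ ρ' hρ' h
        have h1 := (hξ ρ hρ).2
        have h2 := (hξ ρ' hρ').2
        have h : ξ ρ = ξ ρ' := h
        rw [h] at h1
        exact hinj ρ hρ ρ' hρ' _ h1 h2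
  have hconjn : ∀ a b : ℂ, ‖(starRingEnd ℂ) a - (starRingEnd ℂ) b‖ = ‖a - b‖ := by
    intro a b
    rw [← map_sub, Complex.norm_conj]
  have hreal1 : ∀ ρ ∈ Z, (starRingEnd ℂ) ρ = ρ → (starRingEnd ℂ) (ξ ρ) = ξ ρ := by
    intro ρ hρ hr
    have h1 : (starRingEnd ℂ) (ξ ρ) ∈ Z.image ξ := by
      rw [himg, Multiset.mem_toFinset, mem_roots hRm.ne_zero, IsRoot.def, hRconj]
      have h2 := (hξ ρ hρ).1
      rw [Multiset.mem_toFinset, mem_roots hRm.ne_zero, IsRoot.def] at h2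
      rw [h2, map_zero]
    obtain ⟨ρ', hρ', h3⟩ := Finset.mem_image.1 h1
    have h4 : ‖ρ - (starRingEnd ℂ) (ξ ρ)‖ < η := by
      have e : ρ - (starRingEnd ℂ) (ξ ρ) = (starRingEnd ℂ) ρ - (starRingEnd ℂ) (ξ ρ) := by rw [hr]
      rw [e, hconjn]
      exact (hξ ρ hρ).2
    have h5 := (hξ ρ' hρ').2
    rw [h3] at h5
    have h6 := hinj ρ hρ ρ' hρ' _ h4 h5
    rw [← h6] at h3
    exact h3.symm
  have hreal2 : ∀ ρ ∈ Z, (starRingEnd ℂ) (ξ ρ) = ξ ρ → (starRingEnd ℂ) ρ = ρ := by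
    intro ρ hρ hr
    have h4 : ‖(starRingEnd ℂ) ρ - ξ ρ‖ < η := by
      have e : (starRingEnd ℂ) ρ - ξ ρ = (starRingEnd ℂ) ρ - (starRingEnd ℂ) (ξ ρ) := by rw [hr]
      rw [e, hconjn]
      exact (hξ ρ hρ).2
    exact hinj _ (hc ρ hρ) ρ hρ _ h4 (hξ ρ hρ).2
  rw [← Set.ncard_coe_finset]
  symm
  refine Set.ncard_congr (fun ρ _ => (ξ ρ).re) ?_ ?_ ?_
  · intro ρ hρ
    rw [Finset.mem_coe, Finset.mem_filter] at hρ
    have h1 := Complex.conj_eq_iff_re.1 (hreal1 ρ hρ.1 hρ.2)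
    have h2 := (hξ ρ hρ.1).1
    rw [Multiset.mem_toFinset, mem_roots hRm.ne_zero, IsRoot.def, ← h1, hRe] at h2
    exact_mod_cast h2
  · intro ρ ρ' hρ hρ' h
    rw [Finset.mem_coe, Finset.mem_filter] at hρ hρ'
    have h1 := Complex.conj_eq_iff_re.1 (hreal1 ρ hρ.1 hρ.2)
    have h1' := Complex.conj_eq_iff_re.1 (hreal1 ρ' hρ'.1 hρ'.2)
    have h : (ξ ρ).re = (ξ ρ').re := h
    have h2 : ξ ρ = ξ ρ' := by rw [← h1, ← h1', h]
    have h3 := (hξ ρ hρ.1).2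
    have h4 := (hξ ρ' hρ'.1).2
    rw [h2] at h3
    exact hinj ρ hρ.1 ρ' hρ'.1 _ h3 h4
  · intro x hx
    have hx : Q.eval x = 0 := hx
    have h1 : (x : ℂ) ∈ Z.image ξ := by
      rw [himg, Multiset.mem_toFinset, mem_roots hRm.ne_zero, IsRoot.def, hRe, hx]
      simp
    obtain ⟨ρ, hρ, h2⟩ := Finset.mem_image.1 h1
    refine ⟨ρ, ?_, ?_⟩
    · rw [Finset.mem_coe, Finset.mem_filter]
      refine ⟨hρ, hreal2 ρ hρ ?_⟩
      rw [h2, Complex.conj_ofReal]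
    · rw [h2, Complex.ofReal_re]

end Pool.Agent.U376.RL
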