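import Pool.Agent.U376.RL.Root

/-!
# Real polynomials with a given number of real zeros (helper376)
-/

set_option autoImplicit false
set_option linter.all false

open Polynomial
open scoped Classical

namespace Pool.Agent.U376.RL

/-- `2 s + 1` zeros on the real axis and `2 m` zeros on the imaginary axis. -/
noncomputable def zs (s m : ℕ) : Finset ℂ :=
  (Finset.Icc (-(s : ℤ)) s).image (fun j : ℤ => (j : ℂ)) ∪
    ((Finset.Icc (-(m : ℤ)) m).erase 0).image (fun k : ℤ => (k : ℂ) * Complex.I)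

theorem mem_zs {s m : ℕ} {ρ : ℂ} : ρ ∈ zs s m ↔ (∃ j : ℤ, (-(s : ℤ) ≤ j ∧ j ≤ s) ∧ (j : ℂ) = ρ) ∨
    ∃ k : ℤ, (k ≠ 0 ∧ (-(m : ℤ) ≤ k ∧ k ≤ m)) ∧ (k : ℂ) * Complex.I = ρ := by
  unfold zs
  rw [Finset.mem_union, Finset.mem_image, Finset.mem_image]
  simp only [Finset.mem_Icc, Finset.mem_erase]

theorem zs_conj {s m : ℕ} {ρ : ℂ} (h : ρ ∈ zs s m) : (starRingEnd ℂ) ρ ∈ zs s m := by
  rw [mem_zs] at h ⊢
  rcases h with ⟨j, hj, rfl⟩ | ⟨k, hk, rfl⟩
  · exact Or.inl ⟨j, hj, by simp⟩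
  · refine Or.inr ⟨-k, ⟨by omega, by omega, by omega⟩, by simp⟩

theorem zs_neg {s m : ℕ} {ρ : ℂ} (h : ρ ∈ zs s m) : -ρ ∈ zs s m := by
  rw [mem_zs] at h ⊢
  rcases h with ⟨j, hj, rfl⟩ | ⟨k, hk, rfl⟩
  · exact Or.inl ⟨-j, ⟨by omega, by omega⟩, by push_cast; ring⟩
  · refine Or.inr ⟨-k, ⟨by omega, by omega, by omega⟩, by push_cast; ring⟩

theorem zs_card (s m : ℕ) : (zs s m).card = 2 * (s + m) + 1 := by
  unfold zs
  rw [Finset.card_union_of_disjoint, Finset.card_image_of_injective, Finset.card_image_of_injective,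
    Finset.card_erase_of_mem, Int.card_Icc, Int.card_Icc]
  · omega
  · rw [Finset.mem_Icc]; omega
  · intro a b h
    have h' : (a : ℂ) * Complex.I = (b : ℂ) * Complex.I := h
    have := mul_right_cancel₀ Complex.I_ne_zero h'
    exact_mod_cast this
  · intro a b h
    have h' : (a : ℂ) = (b : ℂ) := h
    exact_mod_cast h'
  · rw [Finset.disjoint_left]
    intro ρ h1 h2
    obtain ⟨j, -, rfl⟩ := Finset.mem_image.1 h1
    obtain ⟨k, hk, h⟩ := Finset.mem_image.1 h2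
    have h3 := congrArg Complex.im h
    simp at h3
    exact (Finset.mem_erase.1 hk).1 h3

theorem zs_real (s m : ℕ) : ((zs s m).filter fun ρ => (starRingEnd ℂ) ρ = ρ).card = 2 * s + 1 := by
  have h : ((zs s m).filter fun ρ => (starRingEnd ℂ) ρ = ρ) =
      (Finset.Icc (-(s : ℤ)) s).image (fun j : ℤ => (j : ℂ)) := by
    ext ρ
    rw [Finset.mem_filter, mem_zs, Finset.mem_image]
    constructor
    · rintro ⟨⟨j, hj, rfl⟩ | ⟨k, hk, rfl⟩, hc⟩
      · exact ⟨j, Finset.mem_Icc.2 hj, rfl⟩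
      · exfalso
        have h3 := congrArg Complex.im hc
        simp at h3
        have h4 : (k : ℝ) = 0 := by linarith
        exact hk.1 (by exact_mod_cast h4)
    · rintro ⟨j, hj, rfl⟩
      exact ⟨Or.inl ⟨j, Finset.mem_Icc.1 hj, rfl⟩, by simp⟩
  rw [h, Finset.card_image_of_injective, Int.card_Icc]
  · omega
  · intro a b h
    have h' : (a : ℂ) = (b : ℂ) := h
    exact_mod_cast h'

theorem zs_coeff_conj (s m j : ℕ) :
    (starRingEnd ℂ) ((pz (zs s m)).coeff j) = (pz (zs s m)).coeff j := by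
  have h1 : (pz (zs s m)).map (starRingEnd ℂ) = pz (zs s m) := by
    unfold pz
    rw [Polynomial.map_prod]
    refine Finset.prod_nbij' (fun ρ => (starRingEnd ℂ) ρ) (fun ρ => (starRingEnd ℂ) ρ) ?_ ?_ ?_ ?_ ?_
    · exact fun ρ h => zs_conj h
    · exact fun ρ h => zs_conj h
    · exact fun ρ _ => Complex.conj_conj ρ
    · exact fun ρ _ => Complex.conj_conj ρ
    · intro ρ _
      rw [Polynomial.map_sub, map_X, map_C]
  conv_rhs => rw [← h1]
  rw [coeff_map]

theorem zs_coeff_top (s m g : ℕ) (h : s + m = g) : (pz (zs s m)).coeff (2 * g) = 0 := by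
  have hc := zs_card s m
  have h1 := prod_X_sub_C_coeff_card_pred (zs s m) (fun ρ : ℂ => ρ) (by omega)
  have h2 : ∑ ρ ∈ zs s m, ρ = ∑ ρ ∈ zs s m, -ρ := by
    refine Finset.sum_nbij' (fun ρ => -ρ) (fun ρ => -ρ) ?_ ?_ ?_ ?_ ?_
    · exact fun ρ h => zs_neg h
    · exact fun ρ h => zs_neg h
    · exact fun ρ _ => neg_neg ρ
    · exact fun ρ _ => neg_neg ρ
    · exact fun ρ _ => (neg_neg ρ).symm
  rw [Finset.sum_neg_distrib] at h2
  have h3 : ∑ ρ ∈ zs s m, ρ = 0 := by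
    have : (2 : ℂ) * ∑ ρ ∈ zs s m, ρ = 0 := by
      linear_combination h2
    simpa using this
  rw [h3, neg_zero, hc] at h1
  have e : 2 * (s + m) + 1 - 1 = 2 * g := by omega
  rw [e] at h1
  exact h1

end Pool.Agent.U376.RL
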