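import Pool.Agent.U376.RL.Wr

/-!
# Signatures of towers (helper376)
-/

set_option autoImplicit false
set_option linter.all false

open Polynomial NumberField IsDedekindDomain
open scoped Classical

namespace Pool.Agent.U376.RL

open Pool.Agent.U376.RF
open Pool.Agent.N783.PF
open Pool.Agent.N783.CF (Sym Fields WFull)

theorem exists_sum (m h : ℕ) : ∀ k : ℕ, k ≤ m * h → ∃ v : Fin m → ℕ, (∀ i, v i ≤ h) ∧ ∑ i, v i = k := by
  induction m with
  | zero =>
    intro k hk
    exact ⟨fun _ => 0, fun i => i.elim0, by simp; omega⟩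
  | succ m ih =>
    intro k hk
    have hk' : k - min k h ≤ m * h := by
      rw [Nat.succ_mul] at hk
      rcases le_total k h with h1 | h1
      · rw [min_eq_left h1]; omega
      · rw [min_eq_right h1]; omega
    obtain ⟨v, hv1, hv2⟩ := ih (k - min k h) hk'
    refine ⟨Fin.cons (min k h) v, fun i => ?_, ?_⟩
    · refine Fin.cases ?_ (fun j => ?_) i
      · rw [Fin.cons_zero]; exact min_le_right _ _
      · rw [Fin.cons_succ]; exact hv1 j
    · rw [Fin.sum_univ_succ, Fin.cons_zero]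
      simp only [Fin.cons_succ]
      rw [hv2]
      have := min_le_left k h
      omega

theorem exists_odd {ι : Type} [Fintype ι] (h s : ℕ) (h1 : Fintype.card ι ≤ s)
    (h2 : s ≤ Fintype.card ι * (2 * h + 1)) (h3 : Even (s - Fintype.card ι)) :
    ∃ u : ι → ℕ, (∀ i, Odd (u i) ∧ u i ≤ 2 * h + 1) ∧ ∑ i, u i = s := by
  obtain ⟨k, hk⟩ := h3
  obtain ⟨m, hm⟩ : ∃ m : ℕ, m = Fintype.card ι := ⟨_, rfl⟩
  rw [← hm] at h1 h2 hk
  have hk' : k ≤ m * h := by
    have : m * (2 * h + 1) = 2 * (m * h) + m := by ring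
    omega
  obtain ⟨v, hv1, hv2⟩ := exists_sum m h k hk'
  let e : ι ≃ Fin m := Fintype.equivFinOfCardEq hm.symm
  refine ⟨fun i => 2 * v (e i) + 1, fun i => ⟨⟨v (e i), rfl⟩, ?_⟩, ?_⟩
  · have := hv1 (e i)
    show 2 * v (e i) + 1 ≤ 2 * h + 1
    omega
  · rw [Finset.sum_add_distrib, ← Finset.mul_sum, Finset.sum_const, Finset.card_univ, ← hm,
      e.sum_comp v, hv2]
    simp
    omega

variable (K : Type) [Field K] [NumberField K]

/-- An extension of given odd degree and signature with the symmetric group. -/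
theorem exists_M (m : ℕ) (hm : Odd m) (r : (K →+* ℝ) → ℕ) (hr1 : ∀ σ, Odd (r σ))
    (hr2 : ∀ σ, r σ ≤ m) :
    ∃ M : IntermediateField K (AlgebraicClosure K), ∃ _ : NumberField M,
      Module.finrank K M = m ∧ Sym K M ∧
      ∀ σ : K →+* ℝ, Nat.card {τ : M →+* ℝ // τ.comp (algebraMap K M) = σ} = r σ := by
  obtain ⟨g, rfl⟩ := hm
  rcases Nat.eq_zero_or_pos g with hg | hg
  · subst hg
    have hN : NumberField (⊥ : IntermediateField K (AlgebraicClosure K)) :=
      NumberField.of_ringEquiv K _ (IntermediateField.botEquiv K (AlgebraicClosure K)).symm.toRingEquiv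
    refine ⟨⊥, hN, ?_, ?_, ?_⟩
    · rw [IntermediateField.finrank_bot, mul_zero, zero_add]
    · intro τ
      refine ⟨AlgEquiv.refl, fun φ => ?_⟩
      have hsub : ∀ φ ψ : (⊥ : IntermediateField K (AlgebraicClosure K)) →ₐ[K] AlgebraicClosure K,
          φ = ψ := by
        intro φ ψ
        ext x
        obtain ⟨y, hy⟩ := IntermediateField.mem_bot.1 x.2
        have hx : x = algebraMap K _ y := Subtype.ext hy.symm
        rw [hx, φ.commutes, ψ.commutes]
      exact hsub _ _
    · intro σ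
      have h1 : r σ = 1 := by
        obtain ⟨k, hk⟩ := hr1 σ
        have := hr2 σ
        omega
      rw [h1, Nat.card_eq_one_iff_unique]
      let e := IntermediateField.botEquiv K (AlgebraicClosure K)
      refine ⟨⟨fun a b => ?_⟩, ⟨⟨σ.comp (e : (⊥ : IntermediateField K (AlgebraicClosure K)) →+* K), ?_⟩⟩⟩
      · apply Subtype.ext
        ext x
        obtain ⟨y, hy⟩ := IntermediateField.mem_bot.1 x.2
        have hx : x = algebraMap K _ y := Subtype.ext hy.symm
        rw [hx]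
        have ha := congrArg (fun f : K →+* ℝ => f y) a.2
        have hb := congrArg (fun f : K →+* ℝ => f y) b.2
        exact ha.trans hb.symm
      · ext y
        show σ (e (algebraMap K _ y)) = σ y
        rw [e.commutes]
        rfl
  · obtain ⟨c, hc, X₀, h⟩ := cntR K g hg 1 one_pos (X ^ (2 * g + 1)) (monic_X_pow _)
      (natDegree_X_pow _) (by rw [coeff_X_pow, if_neg (by omega)])
      (fun 𝔭 h1 _ h3 _ => by
        exfalso
        apply h1.ne_top
        rw [Ideal.eq_top_iff_one]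
        simpa using h3)
      (fun 𝔭 h1 _ h3 _ => by
        exfalso
        apply h1.ne_top
        rw [Ideal.eq_top_iff_one]
        simpa using h3) r hr1 hr2
    obtain ⟨-, hle⟩ := h (max X₀ 1) (le_max_left _ _)
    have hpos : (0 : ℝ) < c * (max X₀ 1) ^ ((1 : ℝ) / 2 + 1 / ((2 * g + 1 : ℕ) : ℝ)) := by
      have : (0 : ℝ) < max X₀ 1 := lt_of_lt_of_le one_pos (le_max_right _ _)
      positivity
    have hne : (FldsE g (fun f : (𝓞 K)[X] => (∀ j, ((1 : ℕ) : 𝓞 K) ∣
        f.coeff j - ((X ^ (2 * g + 1) : (𝓞 K)[X])).coeff j) ∧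
        ∀ σ : K →+* ℝ, nR f σ = r σ) (max X₀ 1)).Nonempty := by
      by_contra hno
      rw [Set.not_nonempty_iff_eq_empty] at hno
      rw [hno, Set.ncard_empty, Nat.cast_zero] at hle
      exact absurd hle (not_le.2 hpos)
    obtain ⟨L, hL, hN, f, θ, hG, hi, hs, ht, hu, hcg, hre⟩ := hne
    exact ⟨L, hN, hG.rank, Pool.Agent.N783.CF.full g K L f θ hg hG hi hs ht hu,
      fun σ => (card_emb hG hi σ).trans (hre σ)⟩

/-- The real embeddings in a tower. -/
theorem card_tower (M : IntermediateField K (AlgebraicClosure K)) [NumberField M]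
    (L : IntermediateField M (AlgebraicClosure K)) [NumberField L] (σ : K →+* ℝ)
    (r : (M →+* ℝ) → ℕ)
    (h : ∀ τ : M →+* ℝ, Nat.card {φ : L →+* ℝ // φ.comp (algebraMap M L) = τ} = r τ) :
    Nat.card {φ : L →+* ℝ // φ.comp (algebraMap K L) = σ} =
      ∑ τ : {τ : M →+* ℝ // τ.comp (algebraMap K M) = σ}, r τ.1 := by
  let e : {φ : L →+* ℝ // φ.comp (algebraMap K L) = σ} ≃
      (Σ τ : {τ : M →+* ℝ // τ.comp (algebraMap K M) = σ},
        {φ : L →+* ℝ // φ.comp (algebraMap M L) = τ.1}) :=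
    { toFun := fun φ => ⟨⟨φ.1.comp (algebraMap M L), φ.2⟩, ⟨φ.1, rfl⟩⟩
      invFun := fun x => ⟨x.2.1, by
        have h1 := x.1.2
        have h2 := x.2.2
        rw [← h2] at h1
        exact h1⟩
      left_inv := fun φ => rfl
      right_inv := by
        rintro ⟨⟨τ, hτ⟩, ⟨φ, hφ⟩⟩
        simp only at hφ
        subst hφ
        rfl }
  rw [Nat.card_congr e, Nat.card_sigma]
  exact Finset.sum_congr rfl fun τ _ => h τ.1

/-- Many extensions of odd degree with given signature. -/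
theorem sigTower (n : ℕ) (hn : 3 ≤ n) (hodd : Odd n) (r : (K →+* ℝ) → ℕ)
    (hr1 : ∀ σ, Odd (r σ)) (hr2 : ∀ σ, r σ ≤ n) :
    ∃ c : ℝ, 0 < c ∧ ∃ X₀ : ℝ, ∀ X : ℝ, X₀ ≤ X → (Fields K n X).Finite ∧
      ∃ T : Set (IntermediateField K (AlgebraicClosure K)),
        (∀ L ∈ T, L ∈ Fields K n X ∧ Pool.Agent.N783.CF.HasGroup L
          (Pool.Agent.N783.CF.Wreath n.minFac (⊤ : Subgroup (Equiv.Perm (Fin (n / n.minFac))))) ∧
          ∀ σ : K →+* ℝ, Nat.card {φ : L →+* ℝ // φ.comp (algebraMap K L) = σ} = r σ) ∧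
        c * X ^ ((1 : ℝ) / 2 + 1 / (n.minFac : ℝ)) ≤ (T.ncard : ℝ) := by
  have hpp : n.minFac.Prime := Nat.minFac_prime (by omega)
  have hdvd : n.minFac ∣ n := Nat.minFac_dvd n
  obtain ⟨p, hp⟩ : ∃ p : ℕ, p = n.minFac := ⟨_, rfl⟩
  obtain ⟨m, hm⟩ : ∃ m : ℕ, m = n / n.minFac := ⟨_, rfl⟩
  have hnm : n = m * p := by
    rw [hm, hp]
    exact (Nat.div_mul_cancel hdvd).symm
  rw [← hp] at hpp
  rw [← hm, ← hp]
  have hpodd : Odd p := by
    rw [hnm] at hodd
    exact (Nat.odd_mul.1 hodd).2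
  have hmodd : Odd m := by
    rw [hnm] at hodd
    exact (Nat.odd_mul.1 hodd).1
  obtain ⟨g, hg⟩ := hpodd
  have hg1 : 1 ≤ g := by
    have := hpp.two_le
    omega
  obtain ⟨M, hMN, hMd, hMS, hMr⟩ := exists_M K m hmodd (fun σ => min (r σ) m)
    (fun σ => by
      rcases min_choice (r σ) m with h | h
      · simp only [h]; exact hr1 σ
      · simp only [h]; exact hmodd) (fun σ => min_le_right _ _)
  -- the signature over `M`
  have hu : ∀ σ : K →+* ℝ, ∃ u : {τ : M →+* ℝ // τ.comp (algebraMap K M) = σ} → ℕ,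
      (∀ i, Odd (u i) ∧ u i ≤ 2 * g + 1) ∧ ∑ i, u i = r σ := by
    intro σ
    have hc : Fintype.card {τ : M →+* ℝ // τ.comp (algebraMap K M) = σ} = min (r σ) m := by
      rw [← Nat.card_eq_fintype_card]
      exact hMr σ
    refine exists_odd g (r σ) ?_ ?_ ?_
    · rw [hc]; exact min_le_left _ _
    · rw [hc]
      rcases le_total (r σ) m with h | h
      · rw [min_eq_left h]
        exact Nat.le_mul_of_pos_right _ (by omega)
      · rw [min_eq_right h, ← hg, ← hnm]
        exact hr2 σ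
    · rw [hc]
      have h1 := hr1 σ
      rcases le_total (r σ) m with h | h
      · rw [min_eq_left h, Nat.sub_self]
        exact Even.zero
      · rw [min_eq_right h]
        exact Nat.Odd.sub_odd h1 hmodd
  choose u hu1 hu2 using hu
  obtain ⟨c, hc, X₀, h⟩ := wreathLocal g K M hg1 1 one_pos (X ^ (2 * g + 1)) (monic_X_pow _)
    (natDegree_X_pow _) (by rw [coeff_X_pow, if_neg (by omega)])
    (fun 𝔭 h1 _ h3 _ => by
      exfalso
      apply h1.ne_top
      rw [Ideal.eq_top_iff_one]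
      simpa using h3)
    (fun 𝔭 h1 _ h3 _ => by
      exfalso
      apply h1.ne_top
      rw [Ideal.eq_top_iff_one]
      simpa using h3)
    (fun τ : M →+* ℝ => u (τ.comp (algebraMap K M)) ⟨τ, rfl⟩)
    (fun τ => (hu1 _ _).1) (fun τ => (hu1 _ _).2)
  refine ⟨c, hc, X₀, fun X hX => ?_⟩
  obtain ⟨hfin, T, hT, hle⟩ := h X hX
  have hdeg : Module.finrank K M * (2 * g + 1) = n := by rw [hMd, ← hg, hnm]
  rw [hdeg] at hfin hT
  have hinj : Function.Injective (fun L : IntermediateField M (AlgebraicClosure K) =>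
      L.restrictScalars K) := IntermediateField.restrictScalars_injective K
  refine ⟨hfin, (fun L : IntermediateField M (AlgebraicClosure K) => L.restrictScalars K) '' T,
    ?_, ?_⟩
  · rintro _ ⟨L, hL, rfl⟩
    obtain ⟨h1, h2, h3, -⟩ := hT L hL
    refine ⟨h1, ?_, fun σ => ?_⟩
    · obtain ⟨h4, h5, h6⟩ := h1
      have hHG : Pool.Agent.N783.CF.HasGroup M (⊤ : Subgroup (Equiv.Perm (Fin m))) := by
        have hcM : Fintype.card (M →ₐ[K] AlgebraicClosure K) = m := by
          rw [← hMd]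
          exact AlgHom.card K M _
        let e : (M →ₐ[K] AlgebraicClosure K) ≃ Fin m := Fintype.equivFinOfCardEq hcM
        refine ⟨e, fun τ => ⟨fun _ => ?_, fun _ => Subgroup.mem_top τ⟩⟩
        obtain ⟨s, hs⟩ := hMS ((e.trans τ).trans e.symm)
        refine ⟨s, fun φ => ?_⟩
        rw [← hs φ]
        exact e.apply_symm_apply _
      rw [hg]
      exact Pool.Agent.N783.CF.hasGroup_wreath M (L.restrictScalars K) ⊤ hHG
        (by rw [h4, hdeg]) h2
    · obtain ⟨h4, h5, h6⟩ := h1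
      haveI : NumberField L := h5
      refine (card_tower K M L σ (fun τ : M →+* ℝ => u (τ.comp (algebraMap K M)) ⟨τ, rfl⟩)
        h3).trans ?_
      rw [← hu2 σ]
      refine Finset.sum_congr rfl ?_
      rintro ⟨τ, hτ⟩ _
      subst hτ
      rfl
  · rw [Set.ncard_image_of_injective _ hinj, hg]
    exact hle

end Pool.Agent.U376.RL
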